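import Pool.Agent.N98.PJ.Open
import Pool.Agent.N98.Rel

/-!
Projective varieties with a homogeneous generic point over the function field.
-/

set_option autoImplicit false
set_option linter.unusedVariables false
set_option linter.unusedSectionVars false

open AlgebraicGeometry CategoryTheory Limits HomogeneousLocalization Pool.Agent.W558

namespace Pool.Agent.N98.PJ

section main

variable {k S L : Type} [Field k] [CommRing S] [Algebra k S] (𝒜 : ℕ → Submodule k S)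
  [GradedAlgebra 𝒜] [Field L] [Algebra k L] (ev : S →ₐ[k] L)

set_option maxHeartbeats 1000000 in
/-- **The resolution**, with a point over the function field. -/
theorem exists_res' [IsDomain S]
    (hev : ∀ n, ∀ s ∈ 𝒜 n, ev s = 0 → s = 0) (hgen : Algebra.adjoin k (𝒜 1 : Set S) = ⊤)
    (hK : ∀ f ∈ 𝒜 1, ev f ≠ 0 → ∀ z : L, ∃ a ∈ chart 𝒜 ev f, ∃ b ∈ chart 𝒜 ev f,
      b ≠ 0 ∧ z = a / b)
    (P : SPM k L)
    (hP : ∀ j, ∃ f ∈ 𝒜 1, ev f ≠ 0 ∧ ∀ s ∈ 𝒜 1, ev s / ev f ∈ P.B j) :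
    ∃ π : P.Y ⟶ Proj 𝒜, IsProper π ∧ AlgebraicGeometry.Smooth (π ≫ str 𝒜) ∧
      ∃ U : (Proj 𝒜).Opens, (U : Set (Proj 𝒜)).Nonempty ∧ IsIso (π ∣_ U) := by
  classical
  choose f hf1 hf0 hfB using hP
  have hint := P.int
  have hpr := P.pr
  have hsm := P.sm
  have hoi := P.oi
  let ι : ∀ j, P.B j →+* L := fun j => (P.B j).val.toRingHom
  have hι : ∀ j, Function.Injective (ι j) := fun j => Subtype.val_injective
  have hchart : ∀ j, ∀ y ∈ chart 𝒜 ev (f j), ∃ z : P.B j, ι j z = y := by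
    intro j y hy
    have h1 : chart 𝒜 ev (f j) ≤ P.B j := by
      unfold chart
      rw [Algebra.adjoin_le_iff]
      rintro _ ⟨s, hs, rfl⟩
      exact hfB j s hs
    exact ⟨⟨y, h1 hy⟩, rfl⟩
  have hψ : ∀ j, ∃ ψ : Away 𝒜 (f j) →+* P.B j,
      (ι j).comp ψ = av 𝒜 (ev : S →+* L) (f j) (hf0 j) := fun j =>
    exists_factor (ι j) (hι j) _ fun z => hchart j _ (av_mem 𝒜 ev hgen (f j) (hf1 j) (hf0 j) z)
  choose ψ hψ using hψ
  let φ : ∀ j, Spec (.of (P.B j)) ⟶ Proj 𝒜 := fun j =>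
    Spec.map (CommRingCat.ofHom (ψ j)) ≫ Proj.awayι 𝒜 (f j) (hf1 j) one_pos
  let 𝒰 : P.Y.OpenCover := Scheme.Cover.mkOfCovers P.J (fun j => Spec (.of (P.B j))) P.c
    (fun y => by
      obtain ⟨j, x, hx⟩ := P.cov y
      exact ⟨j, x, hx⟩) P.oi
  have hYne : Nonempty P.Y := inferInstance
  obtain ⟨j0, x0, -⟩ := P.cov hYne.some
  let χ : Spec (.of L) ⟶ P.Y := P.χ
  have hζ : ∀ j, Spec.map (CommRingCat.ofHom (ι j)) ≫ P.c j = χ := fun j => P.hχ j
  have hχ : IsDominant χ := by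
    rw [← hζ j0]
    have h1 : IsDominant (Spec.map (CommRingCat.ofHom (ι j0))) := isDominant_spec _ (hι j0)
    have h2 : IsDominant (P.c j0) := by
      refine ⟨?_⟩
      refine IsOpen.dense (P.c j0).isOpenEmbedding.isOpen_range ?_
      exact ⟨_, x0, rfl⟩
    infer_instance
  have hsep : IsSeparated (str 𝒜) := isSeparated_str 𝒜
  have hφ : ∀ j, φ j ≫ str 𝒜 = P.c j ≫ P.g := by
    intro j
    change (Spec.map (CommRingCat.ofHom (ψ j)) ≫ Proj.awayι 𝒜 (f j) (hf1 j) one_pos) ≫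
      Proj.toSpecZero 𝒜 ≫ Spec.map (CommRingCat.ofHom (algebraMap k (𝒜 0))) = P.c j ≫ P.g
    rw [P.hg j, Category.assoc, Proj.awayι_toSpecZero_assoc, ← Spec.map_comp, ← Spec.map_comp]
    congr 1
    apply CommRingCat.hom_ext
    ext r
    have h1 := congrArg (fun F => F (fromZeroRingHom 𝒜 (Submonoid.powers (f j))
      (algebraMap k (𝒜 0) r))) (hψ j)
    refine h1.trans ?_
    exact (av_fromZero 𝒜 (ev : S →+* L) (hf0 j) (algebraMap k (𝒜 0) r)).trans (ev.commutes r)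
  obtain ⟨π, hπ, hπ'⟩ := exists_glue (S := Spec (.of k)) P.g (str 𝒜) 𝒰 φ hφ χ (fun j => Spec.map (CommRingCat.ofHom (ι j))) hζ
    (pt 𝒜 (ev : S →+* L) (hf1 j0) one_pos (hf0 j0)) (fun j => by
      change Spec.map (CommRingCat.ofHom (ι j)) ≫ Spec.map (CommRingCat.ofHom (ψ j)) ≫
        Proj.awayι 𝒜 (f j) (hf1 j) one_pos = _
      rw [← Category.assoc, ← Spec.map_comp, ← CommRingCat.ofHom_comp, hψ j]
      exact pt_eq 𝒜 _ _ _ _ _ _ _)
  have hprop : IsProper π := by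
    have h1 : IsProper (π ≫ str 𝒜) := by rw [hπ]; exact hpr
    exact IsProper.of_comp π (str 𝒜)
  refine ⟨π, hprop, by rw [hπ]; exact hsm, ?_⟩
  -- the open subset
  obtain ⟨G, hG⟩ := P.ft j0
  have hnum : ∀ z : L, ∃ b ∈ chart 𝒜 ev (f j0), b ≠ 0 ∧ z * b ∈ chart 𝒜 ev (f j0) := by
    intro z
    obtain ⟨a, ha, b, hb, hb0, hz⟩ := hK (f j0) (hf1 j0) (hf0 j0) z
    refine ⟨b, hb, hb0, ?_⟩
    rw [hz, div_mul_cancel₀ _ hb0]
    exact ha
  choose den hden hden0 hnum using hnum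
  let b : L := ∏ z ∈ G, den z
  have hb : b ∈ chart 𝒜 ev (f j0) := Subalgebra.prod_mem _ fun z _ => hden z
  have hb0 : b ≠ 0 := Finset.prod_ne_zero_iff.2 fun z _ => hden0 z
  let C := locAt (chart 𝒜 ev (f j0)) b hb
  have hBC : ∀ z : P.B j0, ι j0 z ∈ C := by
    intro z
    have h1 : Algebra.adjoin k (G : Set L) ≤ C := by
      rw [Algebra.adjoin_le_iff]
      intro y hy
      refine ⟨1, ?_⟩
      rw [pow_one]
      change y * ∏ z ∈ G, den z ∈ _
      rw [← Finset.mul_prod_erase _ _ hy, ← mul_assoc]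
      exact Subalgebra.mul_mem _ (hnum y) (Subalgebra.prod_mem _ fun z _ => hden z)
    rw [hG] at h1
    exact h1 z.2
  let ιC : C →+* L := C.val.toRingHom
  have hιC : Function.Injective ιC := Subtype.val_injective
  obtain ⟨f1, hf1'⟩ := exists_factor ιC hιC (av 𝒜 (ev : S →+* L) (f j0) (hf0 j0)) fun z =>
    ⟨⟨_, le_locAt _ b hb (av_mem 𝒜 ev hgen (f j0) (hf1 j0) (hf0 j0) z)⟩, rfl⟩
  obtain ⟨f2, hf2'⟩ := exists_factor ιC hιC (ι j0) fun z => ⟨⟨_, hBC z⟩, rfl⟩
  have h12 : f2.comp (ψ j0) = f1 := by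
    apply RingHom.ext
    intro z
    apply hιC
    have h1 := congrArg (fun F => F (ψ j0 z)) hf2'
    have h2 := congrArg (fun F => F z) hf1'
    have h3 := congrArg (fun F => F z) (hψ j0)
    exact h1.trans (h3.trans h2.symm)
  have hinvC : b⁻¹ ∈ C := inv_mem_locAt _ b hb hb0
  have hunit : ∀ c : C, ιC c = b → IsUnit c := by
    intro c hc
    refine IsUnit.of_mul_eq_one ⟨b⁻¹, hinvC⟩ ?_
    apply hιC
    rw [map_mul, hc, map_one]
    exact mul_inv_cancel₀ hb0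
  obtain ⟨b1, hb1⟩ := mem_range_av 𝒜 ev (f j0) (hf1 j0) (hf0 j0) b hb
  have hb1' : ιC (f1 b1) = b := by
    have h2 := congrArg (fun F => F b1) hf1'
    exact h2.trans hb1
  obtain ⟨b2, hb2⟩ := hchart j0 b hb
  have hb2' : ιC (f2 b2) = b := by
    have h2 := congrArg (fun F => F b2) hf2'
    exact h2.trans hb2
  have ho1 : IsOpenImmersion (Spec.map (CommRingCat.ofHom f1)) := by
    refine isOpenImmersion_of_loc f1 ?_ b1 (hunit _ hb1') fun c => ?_
    · intro x y hxy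
      apply av_injective 𝒜 ev hev (f j0) (hf1 j0) (hf0 j0)
      rw [← hf1']
      exact congrArg ιC hxy
    · obtain ⟨n, hn⟩ := c.2
      obtain ⟨a, ha⟩ := mem_range_av 𝒜 ev (f j0) (hf1 j0) (hf0 j0) _ hn
      refine ⟨n, a, ?_⟩
      apply hιC
      rw [map_mul, map_pow, hb1']
      have h2 := congrArg (fun F => F a) hf1'
      exact (h2.trans ha).symm
  have ho2 : IsOpenImmersion (Spec.map (CommRingCat.ofHom f2)) := by
    refine isOpenImmersion_of_loc f2 ?_ b2 (hunit _ hb2') fun c => ?_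
    · intro x y hxy
      apply hι j0
      rw [← hf2']
      exact congrArg ιC hxy
    · obtain ⟨n, hn⟩ := c.2
      obtain ⟨a, ha⟩ := hchart j0 _ hn
      refine ⟨n, a, ?_⟩
      apply hιC
      rw [map_mul, map_pow, hb2']
      have h2 := congrArg (fun F => F a) hf2'
      exact (h2.trans ha).symm
  let a : Spec (.of C) ⟶ Proj 𝒜 :=
    Spec.map (CommRingCat.ofHom f1) ≫ Proj.awayι 𝒜 (f j0) (hf1 j0) one_pos
  let b' : Spec (.of C) ⟶ P.Y := Spec.map (CommRingCat.ofHom f2) ≫ P.c j0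
  have hab : b' ≫ π = a := by
    change (Spec.map (CommRingCat.ofHom f2) ≫ P.c j0) ≫ π = _
    have h1 : P.c j0 ≫ π = φ j0 := hπ' j0
    rw [Category.assoc, h1]
    change Spec.map (CommRingCat.ofHom f2) ≫ Spec.map (CommRingCat.ofHom (ψ j0)) ≫ _ = _
    rw [← Category.assoc, ← Spec.map_comp, ← CommRingCat.ofHom_comp, h12]
  have hiso : IsIso (pullback.snd π a) := isIso_snd π a b' hab
  refine ⟨a.opensRange, ?_, isIso_restrict π a⟩
  exact ⟨_, Classical.arbitrary (Spec (.of C)), rfl⟩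

end main

/-- A principalization of the homogeneous coordinates. -/
theorem exists_chart_model {k K : Type} [Field k] [Field K] [Algebra k K] {T I : Type} [Finite T]
    [Fintype I] (M : LM (⊥ : Subalgebra k K) ⊤ T I) (hFr : Frc M) {ι : Type} [Finite ι]
    [Nonempty ι] (y : ι → K) (hy : ∀ i, IsBr M (y i)) :
    ∃ (T' I' : Type) (_ : Finite T') (_ : Fintype I') (M' : LM (⊥ : Subalgebra k K) ⊤ T' I'),
      ∀ t, ∃ a, ∀ i, y i / y a ∈ M'.A t := by
  classical
  have hy0 : ∀ i, y i ≠ 0 := fun i => (hy i).ne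
  obtain ⟨N, hN, hB⟩ := exists_common hy
  have hN0 : N ≠ 0 := by
    rintro rfl
    exact hN Nat.cast_zero
  obtain ⟨T', I', hT', hI', M', q, hq, hpr⟩ := exists_princ M (fun i => y i ^ N) hB
  have hFr' := hq.frc hFr
  refine ⟨T', I', hT', hI', M', fun t => ?_⟩
  obtain ⟨a, ha⟩ := exists_least (fun a b : ι => y b ^ N / y a ^ N ∈ M'.A t)
    (fun a b => hpr t a b) (fun a b c h1 h2 => by
      have h3 : y c ^ N / y a ^ N = (y c ^ N / y b ^ N) * (y b ^ N / y a ^ N) := by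
        have := pow_ne_zero N (hy0 a)
        have := pow_ne_zero N (hy0 b)
        field_simp
      rw [h3]
      exact (M'.A t).mul_mem h2 h1)
  refine ⟨a, fun i => ?_⟩
  have hsm := M'.sm t
  have hic : IsIntegrallyClosed (M'.A t) := wd_norm k (M'.A t)
  have hfrac : IsFractionRing (M'.A t) K := by
    refine IsFractionRing.of_field _ _ fun z => ?_
    obtain ⟨u, hu, v, hv, hv0, h⟩ := hFr' t z
    exact ⟨⟨u, hu⟩, ⟨v, hv⟩, by rw [h, div_eq_mul_inv]; rfl⟩
  have h1 : IsIntegral (M'.A t) (y i / y a) := by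
    refine IsIntegral.of_pow (Nat.pos_of_ne_zero hN0) ?_
    rw [div_pow]
    exact isIntegral_algebraMap (x := (⟨_, ha i⟩ : M'.A t))
  obtain ⟨w, hw⟩ := IsIntegrallyClosed.isIntegral_iff.1 h1
  rw [← hw]
  exact w.2

/-- Open subschemes of projective varieties whose homogeneous coordinates are boundary functions. -/
theorem isResolvable_open_of_isBr {k S K : Type} [Field k] [CommRing S] [IsDomain S] [Algebra k S]
    (𝒜 : ℕ → Submodule k S) [GradedAlgebra 𝒜] (hgen : Algebra.adjoin k (𝒜 1 : Set S) = ⊤)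
    [Field K] [Algebra k K] (ev : S →ₐ[k] K) (hev : ∀ n, ∀ s ∈ 𝒜 n, ev s = 0 → s = 0)
    (hK : ∀ z : K, ∃ n, ∃ s ∈ 𝒜 n, ∃ t ∈ 𝒜 n, ev t ≠ 0 ∧ z = ev s / ev t)
    {m : ℕ} (b : Fin m → S) (hspan : Submodule.span k (Set.range b) = 𝒜 1)
    {T I : Type} [Finite T] [Fintype I] (M : LM (⊥ : Subalgebra k K) ⊤ T I) (hFr : Frc M)
    (hM : ∀ i, ev (b i) ≠ 0 → IsBr M (ev (b i))) (h1 : 𝒜 1 ≠ ⊥)
    (U : (Proj 𝒜).Opens) (hU : (U : Set (Proj 𝒜)).Nonempty) :
    IsResolvableVariety (X := U.toScheme) (U.ι ≫ str 𝒜) := by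
  classical
  have hb : ∀ i, b i ∈ 𝒜 1 := fun i => by
    rw [← hspan]
    exact Submodule.subset_span ⟨i, rfl⟩
  have hfg : (𝒜 1).FG := by
    rw [← hspan]
    exact Submodule.fg_span (Set.finite_range b)
  let ι : Type := {i : Fin m // ev (b i) ≠ 0}
  have hι : Nonempty ι := by
    by_contra hcon
    rw [not_nonempty_iff] at hcon
    apply h1
    rw [← hspan, Submodule.span_eq_bot]
    rintro _ ⟨i, rfl⟩
    by_contra h0
    exact hcon.false ⟨i, fun h => h0 (hev 1 _ (hb i) h)⟩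
  obtain ⟨T', I', hT', hI', M', hcharts⟩ := exists_chart_model M hFr (fun i : ι => ev (b i.1))
    (fun i => hM i.1 i.2)
  obtain ⟨P, hP⟩ := exists_spm M'
  obtain ⟨π, hπ, hsm, U0, hU0, hiso⟩ := exists_res' 𝒜 ev hev hgen (fun f hf hf0 z => by
    obtain ⟨n, s, hs, t, ht, ht0, rfl⟩ := hK z
    refine ⟨ev s / ev f ^ n, ev_div_mem 𝒜 ev f hf0 n s (le_pow 𝒜 hgen n hs), ev t / ev f ^ n,
      ev_div_mem 𝒜 ev f hf0 n t (le_pow 𝒜 hgen n ht), div_ne_zero ht0 (pow_ne_zero n hf0), ?_⟩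
    rw [div_div_div_cancel_right₀ (pow_ne_zero n hf0)]) P (fun j => by
    obtain ⟨t, ht⟩ := hP j
    obtain ⟨a, ha⟩ := hcharts t
    refine ⟨b a.1, hb a.1, a.2, fun s hs => ?_⟩
    rw [← hspan] at hs
    induction hs using Submodule.span_induction with
    | mem x hx =>
      obtain ⟨i, rfl⟩ := hx
      by_cases h : ev (b i) = 0
      · rw [h, zero_div]
        exact Subalgebra.zero_mem _
      · exact ht (ha ⟨i, h⟩)
    | zero => rw [map_zero, zero_div]; exact Subalgebra.zero_mem _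
    | add x y _ _ hx hy => rw [map_add, add_div]; exact Subalgebra.add_mem _ hx hy
    | smul c x _ hx =>
      rw [map_smul, Algebra.smul_def, mul_div_assoc]
      exact Subalgebra.mul_mem _ (Subalgebra.algebraMap_mem _ c) hx)
  have hint : IsIntegral (Proj 𝒜) := by
    obtain ⟨i⟩ := hι
    exact proj_integral 𝒜 one_ne_zero (b i.1) (hb i.1) (fun h => i.2 (by rw [h, map_zero]))
  have hY := P.int
  have hUne : Nonempty U.toScheme := ⟨⟨hU.some, hU.some_mem⟩⟩
  have hUint : IsIntegral U.toScheme := isIntegral_of_isOpenImmersion U.ι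
  have hft := finiteType_zero 𝒜 hgen hfg
  have hiso0 := isIso_zero 𝒜 hgen
  have hprop : IsProper (Proj.toSpecZero 𝒜) := inferInstance
  have hsep : IsSeparated (str 𝒜) := isSeparated_str 𝒜
  have hlft : LocallyOfFiniteType (str 𝒜) := by
    unfold str
    infer_instance
  have hqc : QuasiCompact (str 𝒜) := by
    unfold str
    infer_instance
  have hnoeth : IsLocallyNoetherian (Proj 𝒜) := LocallyOfFiniteType.isLocallyNoetherian (str 𝒜)
  refine ⟨⟨hUint, inferInstance, inferInstance, inferInstance⟩, ?_⟩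
  exact restrict_resolution π hπ (str 𝒜) hsm U0 hU0 hiso U hU

end Pool.Agent.N98.PJ
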