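import Pool.Agent.N98.PJ.Model

/-!
The resolution of a projective variety from smooth charts.
-/

set_option autoImplicit false
set_option linter.unusedVariables false
set_option linter.unusedSectionVars false

open AlgebraicGeometry CategoryTheory Limits HomogeneousLocalization

namespace Pool.Agent.N98.PJ

/-- The spectrum of a field is dominant. -/
lemma isDominant_spec {R K : Type} [CommRing R] [Field K] (f : R →+* K)
    (hf : Function.Injective f) : IsDominant (Spec.map (CommRingCat.ofHom f)) := by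
  refine ⟨?_⟩
  have h1 : DenseRange (PrimeSpectrum.comap f) := by
    rw [PrimeSpectrum.denseRange_comap_iff_ker_le_nilRadical, (RingHom.injective_iff_ker_eq_bot f).1 hf]
    exact bot_le
  exact h1

/-- Open immersions from localizations. -/
lemma isOpenImmersion_of_loc {R C : Type} [CommRing R] [CommRing C] (f : R →+* C)
    (hf : Function.Injective f) (b : R) (hb : IsUnit (f b))
    (h : ∀ c : C, ∃ (n : ℕ) (a : R), c * f b ^ n = f a) :
    IsOpenImmersion (Spec.map (CommRingCat.ofHom f)) := by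
  algebraize [f]
  have h1 : IsLocalization.Away b C := by
    refine (isLocalization_iff (M := Submonoid.powers b) (S := C)).2
      ⟨fun y => ?_, fun z => ?_, fun {x y} hxy => ?_⟩
    · obtain ⟨_, n, rfl⟩ := y
      change IsUnit (f (b ^ n))
      rw [map_pow]
      exact hb.pow n
    · obtain ⟨n, a, h2⟩ := h z
      refine ⟨⟨a, ⟨b ^ n, n, rfl⟩⟩, ?_⟩
      change z * f (b ^ n) = f a
      rw [map_pow]
      exact h2
    · exact ⟨1, by rw [hf hxy]⟩
  exact IsOpenImmersion.of_isLocalization b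

section integral

variable {A : Type} [CommRing A] [IsDomain A] {σ : Type*} [SetLike σ A] [AddSubgroupClass σ A]
  (𝒜 : ℕ → σ) [GradedRing 𝒜]

/-- `Proj` of a graded domain is integral. -/
theorem proj_integral {m : ℕ} (hm : m ≠ 0) (a : A) (ha : a ∈ 𝒜 m) (ha0 : a ≠ 0) :
    IsIntegral (Proj 𝒜) := by
  let η : ProjectiveSpectrum 𝒜 :=
    { asHomogeneousIdeal := ⊥
      isPrime := by
        change (⊥ : Ideal A).IsPrime
        exact Ideal.isPrime_bot
      not_irrelevant_le := by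
        intro h
        have h1 : a ∈ HomogeneousIdeal.irrelevant 𝒜 := by
          rw [HomogeneousIdeal.mem_irrelevant_iff, GradedRing.proj_apply,
            DirectSum.decompose_of_mem_ne 𝒜 ha hm]
        have h2 := h h1
        have h3 : a ∈ (⊥ : Ideal A) := h2
        exact ha0 (by simpa using h3) }
  have hirr : IrreducibleSpace (Proj 𝒜) := by
    have h : closure ({η} : Set (ProjectiveSpectrum 𝒜)) = Set.univ := by
      rw [Set.eq_univ_iff_forall]
      intro x
      rw [← ProjectiveSpectrum.le_iff_mem_closure, ← ProjectiveSpectrum.as_ideal_le_as_ideal]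
      exact bot_le
    have h2 : IsIrreducible (Set.univ : Set (Proj 𝒜)) := by
      change IsIrreducible (Set.univ : Set (ProjectiveSpectrum 𝒜))
      rw [← h]
      exact isIrreducible_singleton.closure
    exact (irreducibleSpace_def _).2 h2
  have hred : IsReduced (Proj 𝒜) := by
    have : ∀ x : Proj 𝒜, _root_.IsReduced ((Proj 𝒜).presheaf.stalk x) := by
      intro x
      have hprime : x.asHomogeneousIdeal.toIdeal.IsPrime := x.isPrime
      have h1 : _root_.IsReduced (AtPrime 𝒜 x.asHomogeneousIdeal.toIdeal) := by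
        have hdom : IsDomain (Localization x.asHomogeneousIdeal.toIdeal.primeCompl) :=
          IsLocalization.isDomain_localization (Ideal.primeCompl_le_nonZeroDivisors _)
        let G : AtPrime 𝒜 x.asHomogeneousIdeal.toIdeal →+*
          Localization x.asHomogeneousIdeal.toIdeal.primeCompl := algebraMap _ _
        have hinj2 : Function.Injective G := by
          intro a b hab
          apply HomogeneousLocalization.val_injective
          exact hab
        exact isReduced_of_injective G hinj2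
      exact isReduced_of_injective (Proj.stalkIso 𝒜 x).hom.hom
        (Proj.stalkIso 𝒜 x).commRingCatIsoToRingEquiv.injective
    exact isReduced_of_isReduced_stalk (Proj 𝒜)
  exact isIntegral_of_irreducibleSpace_of_isReduced _

end integral

/-- Factorization through an injective homomorphism. -/
lemma exists_factor {R B L : Type} [CommRing R] [CommRing B] [CommRing L] (ι : B →+* L)
    (hι : Function.Injective ι) (g : R →+* L) (h : ∀ z, ∃ y, ι y = g z) :
    ∃ ψ : R →+* B, ι.comp ψ = g := by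
  choose y hy using h
  refine ⟨{ toFun := y, map_one' := ?_, map_mul' := ?_, map_zero' := ?_, map_add' := ?_ },
    RingHom.ext hy⟩
  · apply hι
    rw [hy, map_one, map_one]
  · intro a b
    apply hι
    rw [hy, map_mul, map_mul, hy, hy]
  · apply hι
    rw [hy, map_zero, map_zero]
  · intro a b
    apply hι
    rw [hy, map_add, map_add, hy, hy]

section graded

variable {k S : Type} [Field k] [CommRing S] [Algebra k S] (𝒜 : ℕ → Submodule k S)
  [GradedAlgebra 𝒜]

/-- The homogeneous parts of an algebra generated in degree one. -/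
lemma proj_mem_pow (hgen : Algebra.adjoin k (𝒜 1 : Set S) = ⊤) (s : S) :
    ∀ n, (DirectSum.decompose 𝒜 s n : S) ∈ 𝒜 1 ^ n := by
  classical
  have hs : s ∈ Algebra.adjoin k (𝒜 1 : Set S) := by rw [hgen]; trivial
  induction hs using Algebra.adjoin_induction with
  | mem s hs =>
    intro n
    by_cases h : 1 = n
    · subst h
      rw [DirectSum.decompose_of_mem_same 𝒜 hs, pow_one]
      exact hs
    · rw [DirectSum.decompose_of_mem_ne 𝒜 hs h]
      exact Submodule.zero_mem _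
  | algebraMap r =>
    intro n
    have h0 : algebraMap k S r ∈ 𝒜 0 := SetLike.algebraMap_mem_graded 𝒜 r
    by_cases h : 0 = n
    · subst h
      rw [DirectSum.decompose_of_mem_same 𝒜 h0, pow_zero]
      exact Submodule.mem_one.2 ⟨r, rfl⟩
    · rw [DirectSum.decompose_of_mem_ne 𝒜 h0 h]
      exact Submodule.zero_mem _
  | add x y _ _ hx hy =>
    intro n
    rw [DirectSum.decompose_add, DirectSum.add_apply, Submodule.coe_add]
    exact Submodule.add_mem _ (hx n) (hy n)
  | mul x y _ _ hx hy =>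
    intro n
    rw [DirectSum.decompose_mul, DirectSum.coe_mul_apply]
    refine Submodule.sum_mem _ fun ij hij => ?_
    rw [← (Finset.mem_filter.1 hij).2, pow_add]
    exact Submodule.mul_mem_mul (hx _) (hy _)

lemma le_pow (hgen : Algebra.adjoin k (𝒜 1 : Set S) = ⊤) (n : ℕ) : 𝒜 n ≤ 𝒜 1 ^ n := by
  intro s hs
  have h := proj_mem_pow 𝒜 hgen s n
  rwa [DirectSum.decompose_of_mem_same 𝒜 hs] at h

lemma zero_bijective [Nontrivial S] (hgen : Algebra.adjoin k (𝒜 1 : Set S) = ⊤) :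
    Function.Bijective (algebraMap k (𝒜 0)) := by
  constructor
  · intro a b hab
    exact (algebraMap k S).injective (congrArg Subtype.val hab)
  · rintro ⟨s, hs⟩
    have h := le_pow 𝒜 hgen 0 hs
    rw [pow_zero] at h
    obtain ⟨r, hr⟩ := Submodule.mem_one.1 h
    exact ⟨r, Subtype.ext hr⟩

/-- The structure morphism of `Proj`. -/
noncomputable def str : Proj 𝒜 ⟶ Spec (.of k) :=
  Proj.toSpecZero 𝒜 ≫ Spec.map (CommRingCat.ofHom (algebraMap k (𝒜 0)))

lemma finiteType_zero (hgen : Algebra.adjoin k (𝒜 1 : Set S) = ⊤) (hfg : (𝒜 1).FG) :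
    Algebra.FiniteType (𝒜 0) S := by
  have h1 : Algebra.FiniteType k S := by
    obtain ⟨s, hs⟩ := hfg
    refine ⟨⟨s, ?_⟩⟩
    rw [eq_top_iff, ← hgen, Algebra.adjoin_le_iff, ← hs]
    exact Algebra.span_le_adjoin k (s : Set S)
  have h2 : @IsScalarTower k (𝒜 0) S Algebra.toSMul Algebra.toSMul Algebra.toSMul :=
    IsScalarTower.of_algebraMap_eq fun r => rfl
  exact @Algebra.FiniteType.of_restrictScalars_finiteType k (𝒜 0) S _ _ _ _ _ _ h2 h1

lemma isIso_zero [Nontrivial S] (hgen : Algebra.adjoin k (𝒜 1 : Set S) = ⊤) :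
    IsIso (Spec.map (CommRingCat.ofHom (algebraMap k (𝒜 0)))) := by
  have : CommRingCat.ofHom (algebraMap k (𝒜 0)) =
      (RingEquiv.ofBijective (algebraMap k (𝒜 0)) (zero_bijective 𝒜 hgen)).toCommRingCatIso.hom :=
    rfl
  rw [this]
  infer_instance

end graded

section main

variable {k S L : Type} [Field k] [CommRing S] [Algebra k S] (𝒜 : ℕ → Submodule k S)
  [GradedAlgebra 𝒜] [Field L] [Algebra k L] (ev : S →ₐ[k] L)

/-- The coordinates in the chart. -/
noncomputable def chart (f : S) : Subalgebra k L :=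
  Algebra.adjoin k {y : L | ∃ s ∈ 𝒜 1, y = ev s / ev f}

lemma ev_div_mem (f : S) (hf : ev f ≠ 0) (n : ℕ) (s : S) (hs : s ∈ 𝒜 1 ^ n) :
    ev s / ev f ^ n ∈ chart 𝒜 ev f := by
  induction n generalizing s with
  | zero =>
    rw [pow_zero] at hs
    obtain ⟨r, rfl⟩ := Submodule.mem_one.1 hs
    rw [pow_zero, div_one]
    have h1 : ev (algebraMap k S r) = algebraMap k L r := ev.commutes r
    rw [h1]
    exact Subalgebra.algebraMap_mem _ r
  | succ n ih =>
    rw [pow_succ] at hs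
    induction hs using Submodule.mul_induction_on' with
    | mem_mul_mem a ha c hc =>
      have h1 : ev (a * c) / ev f ^ (n + 1) = (ev a / ev f ^ n) * (ev c / ev f) := by
        rw [map_mul, pow_succ]
        field_simp
      rw [h1]
      exact Subalgebra.mul_mem _ (ih a ha) (Algebra.subset_adjoin ⟨c, hc, rfl⟩)
    | add a ha c hc iha ihc =>
      rw [map_add, add_div]
      exact Subalgebra.add_mem _ iha ihc

variable (hgen : Algebra.adjoin k (𝒜 1 : Set S) = ⊤)

include hgen in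
lemma av_mem (f : S) (hf1 : f ∈ 𝒜 1) (hf : (ev : S →+* L) f ≠ 0) (z : Away 𝒜 f) :
    av 𝒜 (ev : S →+* L) f hf z ∈ chart 𝒜 ev f := by
  obtain ⟨n, a, ha, rfl⟩ := Away.mk_surjective 𝒜 hf1 z
  rw [av_mk 𝒜 _ hf1 hf]
  rw [smul_eq_mul, mul_one] at ha
  exact ev_div_mem 𝒜 ev f hf n a (le_pow 𝒜 hgen n ha)

lemma mem_range_av (f : S) (hf1 : f ∈ 𝒜 1) (hf : (ev : S →+* L) f ≠ 0) (y : L)
    (hy : y ∈ chart 𝒜 ev f) : ∃ z, av 𝒜 (ev : S →+* L) f hf z = y := by
  have h1 : ∀ a (ha : a ∈ 𝒜 1), av 𝒜 (ev : S →+* L) f hf (Away.mk 𝒜 hf1 1 a (by simpa using ha)) =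
      ev a / ev f := by
    intro a ha
    rw [av_mk 𝒜 _ hf1 hf, pow_one]
    rfl
  induction hy using Algebra.adjoin_induction with
  | mem y hy =>
    obtain ⟨s, hs, rfl⟩ := hy
    exact ⟨_, h1 s hs⟩
  | algebraMap r =>
    refine ⟨fromZeroRingHom 𝒜 _ (algebraMap k (𝒜 0) r), ?_⟩
    rw [av_fromZero]
    exact ev.commutes r
  | add x y _ _ hx hy =>
    obtain ⟨x, rfl⟩ := hx
    obtain ⟨y, rfl⟩ := hy
    exact ⟨x + y, map_add _ _ _⟩
  | mul x y _ _ hx hy =>
    obtain ⟨x, rfl⟩ := hx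
    obtain ⟨y, rfl⟩ := hy
    exact ⟨x * y, map_mul _ _ _⟩

lemma av_injective [IsDomain S] (hev : ∀ n, ∀ s ∈ 𝒜 n, ev s = 0 → s = 0) (f : S)
    (hf1 : f ∈ 𝒜 1) (hf : (ev : S →+* L) f ≠ 0) :
    Function.Injective (av 𝒜 (ev : S →+* L) f hf) := by
  rw [injective_iff_map_eq_zero]
  intro z hz
  obtain ⟨n, a, ha, rfl⟩ := Away.mk_surjective 𝒜 hf1 z
  rw [av_mk 𝒜 _ hf1 hf, div_eq_zero_iff] at hz
  have h1 : ev a = 0 := hz.resolve_right (pow_ne_zero n hf)
  have h2 : a = 0 := hev _ a ha h1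
  apply HomogeneousLocalization.val_injective
  rw [Away.val_mk, h2, Localization.mk_zero, HomogeneousLocalization.val_zero]

/-- A subalgebra localized at an element. -/
def locAt {k L : Type} [Field k] [Field L] [Algebra k L] (R : Subalgebra k L) (b : L)
    (hb : b ∈ R) : Subalgebra k L where
  carrier := {x | ∃ n : ℕ, x * b ^ n ∈ R}
  mul_mem' := by
    rintro x y ⟨n, hn⟩ ⟨m, hm⟩
    refine ⟨n + m, ?_⟩
    have h1 : x * y * b ^ (n + m) = (x * b ^ n) * (y * b ^ m) := by ring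
    rw [h1]
    exact R.mul_mem hn hm
  add_mem' := by
    rintro x y ⟨n, hn⟩ ⟨m, hm⟩
    refine ⟨n + m, ?_⟩
    have h1 : (x + y) * b ^ (n + m) = (x * b ^ n) * b ^ m + (y * b ^ m) * b ^ n := by ring
    rw [h1]
    exact R.add_mem (R.mul_mem hn (R.pow_mem hb m)) (R.mul_mem hm (R.pow_mem hb n))
  algebraMap_mem' r := ⟨0, by rw [pow_zero, mul_one]; exact R.algebraMap_mem r⟩

lemma le_locAt {k L : Type} [Field k] [Field L] [Algebra k L] (R : Subalgebra k L) (b : L)
    (hb : b ∈ R) : R ≤ locAt R b hb := fun x hx => ⟨0, by rwa [pow_zero, mul_one]⟩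

lemma inv_mem_locAt {k L : Type} [Field k] [Field L] [Algebra k L] (R : Subalgebra k L) (b : L)
    (hb : b ∈ R) (hb0 : b ≠ 0) : b⁻¹ ∈ locAt R b hb :=
  ⟨1, by rw [pow_one, inv_mul_cancel₀ hb0]; exact R.one_mem⟩

lemma isSeparated_str : IsSeparated (str 𝒜) := by
  unfold str
  infer_instance

set_option maxHeartbeats 1000000 in
/-- **The resolution.** -/
theorem exists_res [IsDomain S] (K : IntermediateField k L)
    (hev : ∀ n, ∀ s ∈ 𝒜 n, ev s = 0 → s = 0) (hgen : Algebra.adjoin k (𝒜 1 : Set S) = ⊤)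
    (hK : ∀ f ∈ 𝒜 1, ev f ≠ 0 → ∀ z : K, ∃ a ∈ chart 𝒜 ev f, ∃ b ∈ chart 𝒜 ev f,
      b ≠ 0 ∧ (z : L) = a / b)
    (P : SPM k K)
    (hP : ∀ j, ∃ f ∈ 𝒜 1, ev f ≠ 0 ∧ ∀ s ∈ 𝒜 1, ∃ z ∈ P.B j, (z : L) = ev s / ev f) :
    ∃ π : P.Y ⟶ Proj 𝒜, IsProper π ∧ AlgebraicGeometry.Smooth (π ≫ str 𝒜) ∧
      ∃ U : (Proj 𝒜).Opens, (U : Set (Proj 𝒜)).Nonempty ∧ IsIso (π ∣_ U) := by
  classical
  choose f hf1 hf0 hfB using hP
  have hint := P.int
  have hpr := P.pr
  have hsm := P.sm
  have hoi := P.oi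
  let ι : ∀ j, P.B j →+* L := fun j => (algebraMap K L).comp (P.B j).val.toRingHom
  have hι : ∀ j, Function.Injective (ι j) := fun j =>
    (algebraMap K L).injective.comp Subtype.val_injective
  have hchart : ∀ j, ∀ y ∈ chart 𝒜 ev (f j), ∃ z : P.B j, ι j z = y := by
    intro j y hy
    have h1 : chart 𝒜 ev (f j) ≤ (P.B j).map K.val := by
      unfold chart
      rw [Algebra.adjoin_le_iff]
      rintro _ ⟨s, hs, rfl⟩
      obtain ⟨z, hz, hz'⟩ := hfB j s hs
      exact ⟨z, hz, hz'⟩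
    obtain ⟨z, hz, rfl⟩ := h1 hy
    exact ⟨⟨z, hz⟩, rfl⟩
  have hψ : ∀ j, ∃ ψ : Away 𝒜 (f j) →+* P.B j,
      (ι j).comp ψ = av 𝒜 (ev : S →+* L) (f j) (hf0 j) := fun j =>
    exists_factor (ι j) (hι j) _ fun z => hchart j _ (av_mem 𝒜 ev hgen (f j) (hf1 j) (hf0 j) z)
  choose ψ hψ using hψ
  let φ : ∀ j, Spec (.of (P.B j)) ⟶ Proj 𝒜 := fun j =>
    Spec.map (CommRingCat.ofHom (ψ j)) ≫ Proj.awayι 𝒜 (f j) (hf1 j) one_pos
  let 𝒰 : P.Y.OpenCover := Scheme.Cover.mkOfCovers P.J (fun j => Spec (.of (P.B j))) P.c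
    (fun y => by
      obtain ⟨j, x, hx⟩ := P.cov y
      exact ⟨j, x, hx⟩) P.oi
  have hYne : Nonempty P.Y := inferInstance
  obtain ⟨j0, x0, -⟩ := P.cov hYne.some
  let χ : Spec (.of L) ⟶ P.Y := Spec.map (CommRingCat.ofHom (algebraMap K L)) ≫ P.χ
  have hζ : ∀ j, Spec.map (CommRingCat.ofHom (ι j)) ≫ P.c j = χ := by
    intro j
    change _ = Spec.map (CommRingCat.ofHom (algebraMap K L)) ≫ P.χ
    rw [← P.hχ j, ← Category.assoc, ← Spec.map_comp, ← CommRingCat.ofHom_comp]
  have hχ : IsDominant χ := by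
    rw [← hζ j0]
    have h1 : IsDominant (Spec.map (CommRingCat.ofHom (ι j0))) := isDominant_spec _ (hι j0)
    have h2 : IsDominant (P.c j0) := by
      refine ⟨?_⟩
      refine IsOpen.dense (P.c j0).isOpenEmbedding.isOpen_range ?_
      exact ⟨_, x0, rfl⟩
    infer_instance
  have hsep : IsSeparated (str 𝒜) := isSeparated_str 𝒜
  have hφ : ∀ j, φ j ≫ str 𝒜 = P.c j ≫ P.g := by
    intro j
    change (Spec.map (CommRingCat.ofHom (ψ j)) ≫ Proj.awayι 𝒜 (f j) (hf1 j) one_pos) ≫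
      Proj.toSpecZero 𝒜 ≫ Spec.map (CommRingCat.ofHom (algebraMap k (𝒜 0))) = P.c j ≫ P.g
    rw [P.hg j, Category.assoc, Proj.awayι_toSpecZero_assoc, ← Spec.map_comp, ← Spec.map_comp]
    congr 1
    apply CommRingCat.hom_ext
    ext r
    have h1 := congrArg (fun F => F (fromZeroRingHom 𝒜 (Submonoid.powers (f j))
      (algebraMap k (𝒜 0) r))) (hψ j)
    refine h1.trans ?_
    exact (av_fromZero 𝒜 (ev : S →+* L) (hf0 j) (algebraMap k (𝒜 0) r)).trans (ev.commutes r)
  obtain ⟨π, hπ, hπ'⟩ := exists_glue (S := Spec (.of k)) P.g (str 𝒜) 𝒰 φ hφ χ (fun j => Spec.map (CommRingCat.ofHom (ι j))) hζ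
    (pt 𝒜 (ev : S →+* L) (hf1 j0) one_pos (hf0 j0)) (fun j => by
      change Spec.map (CommRingCat.ofHom (ι j)) ≫ Spec.map (CommRingCat.ofHom (ψ j)) ≫
        Proj.awayι 𝒜 (f j) (hf1 j) one_pos = _
      rw [← Category.assoc, ← Spec.map_comp, ← CommRingCat.ofHom_comp, hψ j]
      exact pt_eq 𝒜 _ _ _ _ _ _ _)
  have hprop : IsProper π := by
    have h1 : IsProper (π ≫ str 𝒜) := by rw [hπ]; exact hpr
    exact IsProper.of_comp π (str 𝒜)
  refine ⟨π, hprop, by rw [hπ]; exact hsm, ?_⟩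
  -- the open subset
  obtain ⟨G, hG⟩ := P.ft j0
  have hnum : ∀ z : K, ∃ b ∈ chart 𝒜 ev (f j0), b ≠ 0 ∧ (z : L) * b ∈ chart 𝒜 ev (f j0) := by
    intro z
    obtain ⟨a, ha, b, hb, hb0, hz⟩ := hK (f j0) (hf1 j0) (hf0 j0) z
    refine ⟨b, hb, hb0, ?_⟩
    rw [hz, div_mul_cancel₀ _ hb0]
    exact ha
  choose den hden hden0 hnum using hnum
  let b : L := ∏ z ∈ G, den z
  have hb : b ∈ chart 𝒜 ev (f j0) := Subalgebra.prod_mem _ fun z _ => hden z
  have hb0 : b ≠ 0 := Finset.prod_ne_zero_iff.2 fun z _ => hden0 z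
  let C := locAt (chart 𝒜 ev (f j0)) b hb
  have hBC : ∀ z : P.B j0, ι j0 z ∈ C := by
    intro z
    have h1 : Algebra.adjoin k (G : Set K) ≤ C.comap K.val := by
      rw [Algebra.adjoin_le_iff]
      intro y hy
      refine ⟨1, ?_⟩
      rw [pow_one]
      change (y : L) * ∏ z ∈ G, den z ∈ _
      rw [← Finset.mul_prod_erase _ _ hy, ← mul_assoc]
      exact Subalgebra.mul_mem _ (hnum y) (Subalgebra.prod_mem _ fun z _ => hden z)
    rw [hG] at h1
    exact h1 z.2
  let ιC : C →+* L := C.val.toRingHom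
  have hιC : Function.Injective ιC := Subtype.val_injective
  obtain ⟨f1, hf1'⟩ := exists_factor ιC hιC (av 𝒜 (ev : S →+* L) (f j0) (hf0 j0)) fun z =>
    ⟨⟨_, le_locAt _ b hb (av_mem 𝒜 ev hgen (f j0) (hf1 j0) (hf0 j0) z)⟩, rfl⟩
  obtain ⟨f2, hf2'⟩ := exists_factor ιC hιC (ι j0) fun z => ⟨⟨_, hBC z⟩, rfl⟩
  have h12 : f2.comp (ψ j0) = f1 := by
    apply RingHom.ext
    intro z
    apply hιC
    have h1 := congrArg (fun F => F (ψ j0 z)) hf2'
    have h2 := congrArg (fun F => F z) hf1'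
    have h3 := congrArg (fun F => F z) (hψ j0)
    exact h1.trans (h3.trans h2.symm)
  have hinvC : b⁻¹ ∈ C := inv_mem_locAt _ b hb hb0
  have hunit : ∀ c : C, ιC c = b → IsUnit c := by
    intro c hc
    refine IsUnit.of_mul_eq_one ⟨b⁻¹, hinvC⟩ ?_
    apply hιC
    rw [map_mul, hc, map_one]
    exact mul_inv_cancel₀ hb0
  obtain ⟨b1, hb1⟩ := mem_range_av 𝒜 ev (f j0) (hf1 j0) (hf0 j0) b hb
  have hb1' : ιC (f1 b1) = b := by
    have h2 := congrArg (fun F => F b1) hf1'
    exact h2.trans hb1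
  obtain ⟨b2, hb2⟩ := hchart j0 b hb
  have hb2' : ιC (f2 b2) = b := by
    have h2 := congrArg (fun F => F b2) hf2'
    exact h2.trans hb2
  have ho1 : IsOpenImmersion (Spec.map (CommRingCat.ofHom f1)) := by
    refine isOpenImmersion_of_loc f1 ?_ b1 (hunit _ hb1') fun c => ?_
    · intro x y hxy
      apply av_injective 𝒜 ev hev (f j0) (hf1 j0) (hf0 j0)
      rw [← hf1']
      exact congrArg ιC hxy
    · obtain ⟨n, hn⟩ := c.2
      obtain ⟨a, ha⟩ := mem_range_av 𝒜 ev (f j0) (hf1 j0) (hf0 j0) _ hn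
      refine ⟨n, a, ?_⟩
      apply hιC
      rw [map_mul, map_pow, hb1']
      have h2 := congrArg (fun F => F a) hf1'
      exact (h2.trans ha).symm
  have ho2 : IsOpenImmersion (Spec.map (CommRingCat.ofHom f2)) := by
    refine isOpenImmersion_of_loc f2 ?_ b2 (hunit _ hb2') fun c => ?_
    · intro x y hxy
      apply hι j0
      rw [← hf2']
      exact congrArg ιC hxy
    · obtain ⟨n, hn⟩ := c.2
      obtain ⟨a, ha⟩ := hchart j0 _ hn
      refine ⟨n, a, ?_⟩
      apply hιC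
      rw [map_mul, map_pow, hb2']
      have h2 := congrArg (fun F => F a) hf2'
      exact (h2.trans ha).symm
  let a : Spec (.of C) ⟶ Proj 𝒜 :=
    Spec.map (CommRingCat.ofHom f1) ≫ Proj.awayι 𝒜 (f j0) (hf1 j0) one_pos
  let b' : Spec (.of C) ⟶ P.Y := Spec.map (CommRingCat.ofHom f2) ≫ P.c j0
  have hab : b' ≫ π = a := by
    change (Spec.map (CommRingCat.ofHom f2) ≫ P.c j0) ≫ π = _
    have h1 : P.c j0 ≫ π = φ j0 := hπ' j0
    rw [Category.assoc, h1]
    change Spec.map (CommRingCat.ofHom f2) ≫ Spec.map (CommRingCat.ofHom (ψ j0)) ≫ _ = _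
    rw [← Category.assoc, ← Spec.map_comp, ← CommRingCat.ofHom_comp, h12]
  have hiso : IsIso (pullback.snd π a) := isIso_snd π a b' hab
  refine ⟨a.opensRange, ?_, isIso_restrict π a⟩
  exact ⟨_, Classical.arbitrary (Spec (.of C)), rfl⟩

end main

end Pool.Agent.N98.PJ
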