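import Pool.Agent.N98.PJ.Birat
import Pool.Agent.N98.Abs

/-!
The function field of a projective variety.
-/

set_option autoImplicit false
set_option linter.unusedVariables false
set_option linter.unusedSectionVars false

open AlgebraicGeometry CategoryTheory Limits HomogeneousLocalization

namespace Pool.Agent.N98.PJ

section

variable {k S L : Type} [Field k] [CommRing S] [IsDomain S] [Algebra k S] (𝒜 : ℕ → Submodule k S)
  [GradedAlgebra 𝒜] [Field L] [Algebra k L] [Algebra S L] [IsScalarTower k S L]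
  [IsFractionRing S L]

/-- The field generated by the quotients of elements of degree one. -/
noncomputable def fld (l : S) : IntermediateField k L :=
  IntermediateField.adjoin k {y : L | ∃ s ∈ 𝒜 1, y = (IsScalarTower.toAlgHom k S L) s /
    (IsScalarTower.toAlgHom k S L) l}

lemma ev_inj : Function.Injective (IsScalarTower.toAlgHom k S L) :=
  IsFractionRing.injective S L

lemma ev_ne {l : S} (hl : l ≠ 0) : (IsScalarTower.toAlgHom k S L) l ≠ 0 :=
  fun h => hl (ev_inj (k := k) (L := L) (h.trans (map_zero _).symm))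

lemma chart_le_fld (l : S) : chart 𝒜 (IsScalarTower.toAlgHom k S L) l ≤ (fld (L := L) 𝒜 l).toSubalgebra :=
  IntermediateField.algebra_adjoin_le_adjoin k _

lemma mem_chart_iff (l : S) (hl : l ∈ 𝒜 1) (hl0 : l ≠ 0) (y : L) (hy : y ∈ chart 𝒜 (IsScalarTower.toAlgHom k S L) l) :
    ∃ n, ∃ a ∈ 𝒜 n, y = (IsScalarTower.toAlgHom k S L) a / (IsScalarTower.toAlgHom k S L) l ^ n := by
  have hl' : ((IsScalarTower.toAlgHom k S L : S →ₐ[k] L) : S →+* L) l ≠ 0 := ev_ne (k := k) hl0
  obtain ⟨z, hz⟩ := mem_range_av 𝒜 (IsScalarTower.toAlgHom k S L) l hl hl' y hy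
  obtain ⟨n, a, ha, rfl⟩ := Away.mk_surjective 𝒜 hl z
  rw [av_mk 𝒜 _ hl hl'] at hz
  rw [smul_eq_mul, mul_one] at ha
  exact ⟨n, a, ha, hz.symm⟩

lemma mem_chart_common (l : S) (hl : l ∈ 𝒜 1) (hl0 : l ≠ 0) {ι : Type} (s : Finset ι) (y : ι → L)
    (hy : ∀ i ∈ s, y i ∈ chart 𝒜 (IsScalarTower.toAlgHom k S L) l) :
    ∃ n, ∀ i ∈ s, ∃ a ∈ 𝒜 n, y i = (IsScalarTower.toAlgHom k S L) a / (IsScalarTower.toAlgHom k S L) l ^ n := by
  classical
  induction s using Finset.induction_on with
  | empty => exact ⟨0, by simp⟩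
  | insert i s hi ih =>
    obtain ⟨n, hn⟩ := ih fun j hj => hy j (Finset.mem_insert_of_mem hj)
    obtain ⟨m, a, ha, hm⟩ := mem_chart_iff 𝒜 l hl hl0 _ (hy i (Finset.mem_insert_self i s))
    have key : ∀ (n m : ℕ) (a : S) (ha : a ∈ 𝒜 n), ∃ a' ∈ 𝒜 (n + m),
        (IsScalarTower.toAlgHom k S L) a / (IsScalarTower.toAlgHom k S L) l ^ n = (IsScalarTower.toAlgHom k S L) a' / (IsScalarTower.toAlgHom k S L) l ^ (n + m) := by
      intro n m a ha
      refine ⟨a * l ^ m, ?_, ?_⟩
      · have h1 := SetLike.pow_mem_graded m hl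
        rw [smul_eq_mul, mul_one] at h1
        exact SetLike.mul_mem_graded ha h1
      · rw [map_mul, map_pow, pow_add, mul_div_mul_right _ _ (pow_ne_zero m (ev_ne hl0))]
    refine ⟨n + m, fun j hj => ?_⟩
    rcases Finset.mem_insert.1 hj with rfl | hj
    · obtain ⟨a', ha', h⟩ := key m n a ha
      rw [add_comm]
      exact ⟨a', ha', hm.trans h⟩
    · obtain ⟨b, hb, h⟩ := hn j hj
      obtain ⟨a', ha', h'⟩ := key n m b hb
      exact ⟨a', ha', h.trans h'⟩

/-- The element `l` is transcendental. -/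
lemma transcendental_chart (l : S) (hl : l ∈ 𝒜 1) (hl0 : l ≠ 0) :
    Transcendental (chart 𝒜 (IsScalarTower.toAlgHom k S L) l) ((IsScalarTower.toAlgHom k S L) l) := by
  classical
  rw [transcendental_iff]
  intro P hP
  obtain ⟨n, hn⟩ := mem_chart_common 𝒜 l hl hl0 (Finset.range (P.natDegree + 1))
    (fun i => (P.coeff i : L)) fun i _ => (P.coeff i).2
  have hn' : ∀ i, ∃ a ∈ 𝒜 n, (P.coeff i : L) = (IsScalarTower.toAlgHom k S L) a / (IsScalarTower.toAlgHom k S L) l ^ n := by
    intro i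
    by_cases hi : i ∈ Finset.range (P.natDegree + 1)
    · exact hn i hi
    · rw [Finset.mem_range, not_lt] at hi
      have h0 : P.coeff i = 0 := Polynomial.coeff_eq_zero_of_natDegree_lt hi
      exact ⟨0, Submodule.zero_mem _, by rw [h0, map_zero, zero_div]; rfl⟩
  choose a ha haP using hn'
  have hmem : ∀ i, a i * l ^ i ∈ 𝒜 (n + i) := by
    intro i
    have h1 := SetLike.pow_mem_graded i hl
    rw [smul_eq_mul, mul_one] at h1
    exact SetLike.mul_mem_graded (ha i) h1
  have hl' : (IsScalarTower.toAlgHom k S L) l ≠ 0 := ev_ne hl0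
  have h1 : ∑ i ∈ Finset.range (P.natDegree + 1), a i * l ^ i = 0 := by
    apply ev_inj (k := k) (L := L)
    rw [map_zero, map_sum]
    rw [Polynomial.aeval_eq_sum_range] at hP
    have h2 : (∑ i ∈ Finset.range (P.natDegree + 1), (IsScalarTower.toAlgHom k S L) (a i * l ^ i)) =
        (IsScalarTower.toAlgHom k S L) l ^ n * ∑ i ∈ Finset.range (P.natDegree + 1), P.coeff i • (IsScalarTower.toAlgHom k S L) l ^ i := by
      rw [Finset.mul_sum]
      refine Finset.sum_congr rfl fun i _ => ?_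
      change _ = (IsScalarTower.toAlgHom k S L) l ^ n * ((P.coeff i : L) * (IsScalarTower.toAlgHom k S L) l ^ i)
      rw [haP, map_mul, map_pow]
      field_simp
    rw [h2, hP, mul_zero]
  ext1 j
  rw [Polynomial.coeff_zero]
  by_cases hj : j ∈ Finset.range (P.natDegree + 1)
  · have h2 := congrArg (fun s => (DirectSum.decompose 𝒜 s (n + j) : S)) h1
    simp only [DirectSum.decompose_sum, DirectSum.decompose_zero, DirectSum.sum_apply,
      DirectSum.zero_apply, AddSubmonoidClass.coe_finsetSum, ZeroMemClass.coe_zero] at h2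
    rw [Finset.sum_eq_single j] at h2
    · rw [DirectSum.decompose_of_mem_same 𝒜 (hmem j)] at h2
      have h3 : a j = 0 := (mul_eq_zero.1 h2).resolve_right (pow_ne_zero j hl0)
      apply Subtype.ext
      rw [haP, h3, map_zero, zero_div]
      rfl
    · intro i _ hij
      exact DirectSum.decompose_of_mem_ne 𝒜 (hmem i) (fun h => hij (by omega))
    · exact fun h => absurd hj h
  · rw [Finset.mem_range, not_lt] at hj
    exact Polynomial.coeff_eq_zero_of_natDegree_lt hj

variable (hgen : Algebra.adjoin k (𝒜 1 : Set S) = ⊤)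

include hgen in
/-- The elements of the chart generate the field of fractions together with `l`. -/
lemma isAlgebraic_adjoin (l : S) (hl : l ∈ 𝒜 1) (hl0 : l ≠ 0) :
    Algebra.IsAlgebraic (Algebra.adjoin (fld (L := L) 𝒜 l) {((IsScalarTower.toAlgHom k S L) l : L)}) L := by
  have hl' : (IsScalarTower.toAlgHom k S L) l ≠ 0 := ev_ne hl0
  have h1 : ∀ s : S, (IsScalarTower.toAlgHom k S L) s ∈ Algebra.adjoin (fld (L := L) 𝒜 l) {((IsScalarTower.toAlgHom k S L) l : L)} := by
    intro s
    have hs : s ∈ Algebra.adjoin k (𝒜 1 : Set S) := by rw [hgen]; trivial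
    have h2 : Algebra.adjoin k (𝒜 1 : Set S) ≤
        ((Algebra.adjoin (fld (L := L) 𝒜 l) {((IsScalarTower.toAlgHom k S L) l : L)}).restrictScalars k).comap (IsScalarTower.toAlgHom k S L) := by
      rw [Algebra.adjoin_le_iff]
      intro s hs
      change (IsScalarTower.toAlgHom k S L) s ∈ Algebra.adjoin (fld (L := L) 𝒜 l) {((IsScalarTower.toAlgHom k S L) l : L)}
      have h3 : (IsScalarTower.toAlgHom k S L) s / (IsScalarTower.toAlgHom k S L) l ∈ fld (L := L) 𝒜 l :=
        chart_le_fld 𝒜 l (Algebra.subset_adjoin ⟨s, hs, rfl⟩)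
      have h4 : (IsScalarTower.toAlgHom k S L) s = algebraMap (fld (L := L) 𝒜 l) L ⟨_, h3⟩ * (IsScalarTower.toAlgHom k S L) l := by
        change _ = ((IsScalarTower.toAlgHom k S L) s / (IsScalarTower.toAlgHom k S L) l) * (IsScalarTower.toAlgHom k S L) l
        rw [div_mul_cancel₀ _ hl']
      rw [h4]
      exact Subalgebra.mul_mem _ (Subalgebra.algebraMap_mem _ _)
        (Algebra.subset_adjoin rfl)
    exact h2 hs
  refine ⟨fun y => ?_⟩
  obtain ⟨a, b, hb, rfl⟩ := IsFractionRing.div_surjective (A := S) y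
  have hb0 : algebraMap S L b ≠ 0 := by
    have := nonZeroDivisors.ne_zero hb
    exact (FaithfulSMul.algebraMap_eq_zero_iff S L).not.2 this
  refine ⟨Polynomial.C ⟨_, h1 b⟩ * Polynomial.X - Polynomial.C ⟨_, h1 a⟩, ?_, ?_⟩
  · intro h0
    have h2 := congrArg (fun P => Polynomial.coeff P 1) h0
    simp only [Polynomial.coeff_sub, Polynomial.coeff_C_mul, Polynomial.coeff_X_one, mul_one,
      Polynomial.coeff_zero] at h2
    rw [Polynomial.coeff_C, if_neg one_ne_zero, sub_zero] at h2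
    exact hb0 (congrArg Subtype.val h2)
  · rw [map_sub, map_mul, Polynomial.aeval_C, Polynomial.aeval_X, Polynomial.aeval_C]
    change algebraMap S L b * (algebraMap S L a / algebraMap S L b) - algebraMap S L a = 0
    rw [mul_div_cancel₀ _ hb0, sub_self]

open scoped IntermediateField.algebraAdjoinAdjoin in
lemma transcendental_fld (l : S) (hl : l ∈ 𝒜 1) (hl0 : l ≠ 0) :
    Transcendental (fld (L := L) 𝒜 l) ((IsScalarTower.toAlgHom k S L) l) := by
  intro h
  have h1 : IsAlgebraic (Algebra.adjoin k {y : L | ∃ s ∈ 𝒜 1, y = (IsScalarTower.toAlgHom k S L) s /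
      (IsScalarTower.toAlgHom k S L) l}) ((IsScalarTower.toAlgHom k S L) l) :=
    (IsFractionRing.isAlgebraic_iff (Algebra.adjoin k {y : L | ∃ s ∈ 𝒜 1,
      y = (IsScalarTower.toAlgHom k S L) s / (IsScalarTower.toAlgHom k S L) l})
      (IntermediateField.adjoin k {y : L | ∃ s ∈ 𝒜 1, y = (IsScalarTower.toAlgHom k S L) s /
      (IsScalarTower.toAlgHom k S L) l}) L).2 h
  exact transcendental_chart 𝒜 l hl hl0 h1

include hgen in
lemma trdeg_fld (l : S) (hl : l ∈ 𝒜 1) (hl0 : l ≠ 0) (d : ℕ) (hd : Algebra.trdeg k S = d + 1) :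
    Algebra.trdeg k (fld (L := L) 𝒜 l) = d := by
  have h1 : IsTranscendenceBasis (fld (L := L) 𝒜 l) (fun _ : Unit => ((IsScalarTower.toAlgHom k S L) l : L)) := by
    have h2 : AlgebraicIndependent (fld (L := L) 𝒜 l) (fun _ : Unit => ((IsScalarTower.toAlgHom k S L) l : L)) :=
      algebraicIndependent_unique_type_iff.2 (transcendental_fld 𝒜 l hl hl0)
    rw [h2.isTranscendenceBasis_iff_isAlgebraic]
    rw [Set.range_const]
    exact isAlgebraic_adjoin 𝒜 hgen l hl hl0
  have h2 : Algebra.trdeg (fld (L := L) 𝒜 l) L = 1 := by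
    rw [← h1.cardinalMk_eq_trdeg]
    simp
  have h3 := trdeg_add_eq k (fld (L := L) 𝒜 l) (A := L)
  have h4 := trdeg_add_eq k S (A := L)
  have h5 : Algebra.trdeg S L = 0 := by
    have : Algebra.IsAlgebraic S L := IsLocalization.isAlgebraic _ (nonZeroDivisors S)
    exact trdeg_eq_zero
  rw [h5, add_zero, hd] at h4
  rw [h2, ← h4] at h3
  exact Cardinal.add_one_inj.1 h3

lemma finite_graded (hgen : Algebra.adjoin k (𝒜 1 : Set S) = ⊤) (hfg : (𝒜 1).FG) (t : ℕ) :
    FiniteDimensional k (𝒜 t) := by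
  have h1 : 𝒜 1 ^ t ≤ 𝒜 t := by
    induction t with
    | zero =>
      rw [pow_zero]
      intro x hx
      obtain ⟨r, rfl⟩ := Submodule.mem_one.1 hx
      exact SetLike.algebraMap_mem_graded 𝒜 r
    | succ t ih =>
      rw [pow_succ, Submodule.mul_le]
      intro a ha b hb
      exact SetLike.mul_mem_graded (ih ha) hb
  have h2 : 𝒜 t = 𝒜 1 ^ t := le_antisymm (le_pow 𝒜 hgen t) h1
  rw [h2]
  exact Module.Finite.iff_fg.2 (hfg.pow t)

/-- The polynomial functions are quotients of homogeneous elements. -/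
lemma aeval_eq_div {m : ℕ} (b : Fin m → S) (hb : ∀ i, b i ∈ 𝒜 1) (l : S) (hl : l ∈ 𝒜 1)
    (hl0 : l ≠ 0) (t : ℕ) (P : MvPolynomial (Fin m) k) (hP : P.totalDegree ≤ t) :
    ∃ a ∈ 𝒜 t, MvPolynomial.aeval (fun i => ((IsScalarTower.toAlgHom k S L) (b i) / (IsScalarTower.toAlgHom k S L) l : L)) P = (IsScalarTower.toAlgHom k S L) a / (IsScalarTower.toAlgHom k S L) l ^ t := by
  classical
  have hl' : (IsScalarTower.toAlgHom k S L) l ≠ 0 := ev_ne hl0
  have key : ∀ e ∈ P.support, ∃ a ∈ 𝒜 t, algebraMap k L (P.coeff e) *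
      ∏ i, ((IsScalarTower.toAlgHom k S L) (b i) / (IsScalarTower.toAlgHom k S L) l : L) ^ e i = (IsScalarTower.toAlgHom k S L) a / (IsScalarTower.toAlgHom k S L) l ^ t := by
    intro e he
    have h1 : ∑ i, e i ≤ t := by
      refine le_trans ?_ hP
      have h2 := MvPolynomial.le_totalDegree he
      rwa [Finsupp.sum_fintype _ _ (fun _ => rfl)] at h2
    refine ⟨P.coeff e • ((∏ i, b i ^ e i) * l ^ (t - ∑ i, e i)), ?_, ?_⟩
    · refine Submodule.smul_mem _ _ ?_
      have h2 := SetLike.prod_pow_mem_graded 𝒜 (fun _ => 1) b e (F := Finset.univ)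
        (fun i _ => hb i)
      have h3 := SetLike.pow_mem_graded (t - ∑ i, e i) hl
      simp only [smul_eq_mul, mul_one] at h2 h3
      have h4 := SetLike.mul_mem_graded h2 h3
      have h5 : ∑ i, e i + (t - ∑ i, e i) = t := by omega
      rwa [h5] at h4
    · rw [map_smul, Algebra.smul_def, map_mul, map_prod, map_pow]
      simp only [map_pow, div_pow]
      rw [Finset.prod_div_distrib, Finset.prod_pow_eq_pow_sum, mul_div_assoc]
      congr 1
      rw [eq_div_iff (pow_ne_zero t hl'), div_mul_eq_mul_div, mul_div_assoc]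
      congr 1
      rw [div_eq_iff (pow_ne_zero _ hl'), ← pow_add]
      congr 1
      omega
  have key' : ∀ e, ∃ a ∈ 𝒜 t, e ∈ P.support → algebraMap k L (P.coeff e) *
      ∏ i, ((IsScalarTower.toAlgHom k S L) (b i) / (IsScalarTower.toAlgHom k S L) l : L) ^ e i = (IsScalarTower.toAlgHom k S L) a / (IsScalarTower.toAlgHom k S L) l ^ t := by
    intro e
    by_cases he : e ∈ P.support
    · obtain ⟨a, ha, h⟩ := key e he
      exact ⟨a, ha, fun _ => h⟩
    · exact ⟨0, Submodule.zero_mem _, fun h => absurd h he⟩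
  choose a ha h using key'
  refine ⟨∑ e ∈ P.support, a e, Submodule.sum_mem _ fun e _ => ha e, ?_⟩
  rw [MvPolynomial.aeval_def, MvPolynomial.eval₂_eq', map_sum, Finset.sum_div]
  exact Finset.sum_congr rfl fun e he => h e he

lemma growth_fld {m : ℕ} (b : Fin m → S) (hb : ∀ i, b i ∈ 𝒜 1) (l : S) (hl : l ∈ 𝒜 1)
    (hl0 : l ≠ 0) (x : Fin m → fld (L := L) 𝒜 l) (hx : ∀ i, (x i : L) = (IsScalarTower.toAlgHom k S L) (b i) / (IsScalarTower.toAlgHom k S L) l)
    (t : ℕ) [FiniteDimensional k (𝒜 t)] :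
    Module.finrank k (img k x t) ≤ Module.finrank k (𝒜 t) := by
  let μ : 𝒜 t →ₗ[k] L := (LinearMap.mulRight k (((IsScalarTower.toAlgHom k S L) l : L) ^ t)⁻¹) ∘ₗ
    (IsScalarTower.toAlgHom k S L).toLinearMap ∘ₗ (𝒜 t).subtype
  have h1 : (img k x t).map ((fld (L := L) 𝒜 l).val.toLinearMap) ≤ LinearMap.range μ := by
    rintro _ ⟨_, ⟨P, hP, rfl⟩, rfl⟩
    have hP' : P.totalDegree ≤ t := (MvPolynomial.mem_restrictTotalDegree _ _ _).1 hP
    obtain ⟨a, ha, h⟩ := aeval_eq_div (L := L) 𝒜 b hb l hl hl0 t P hP'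
    refine ⟨⟨a, ha⟩, ?_⟩
    have h2 : (fld (L := L) 𝒜 l).val (MvPolynomial.aeval x P) =
        MvPolynomial.aeval (fun i => ((IsScalarTower.toAlgHom k S L) (b i) / (IsScalarTower.toAlgHom k S L) l : L)) P := by
      rw [MvPolynomial.comp_aeval_apply]
      congr 2
      funext i
      exact hx i
    refine Eq.trans ?_ h2.symm
    rw [h, div_eq_mul_inv]
    rfl
  have h2 : Module.finrank k (img k x t) =
      Module.finrank k ((img k x t).map ((fld (L := L) 𝒜 l).val.toLinearMap)) :=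
    LinearEquiv.finrank_eq (Submodule.equivMapOfInjective _ Subtype.val_injective _)
  rw [h2]
  have h3 : FiniteDimensional k (LinearMap.range μ) := inferInstance
  exact (Submodule.finrank_mono h1).trans (LinearMap.finrank_range_le μ)

end

end Pool.Agent.N98.PJ
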