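import Mathlib

/-!
Gluing of morphisms which agree at the generic point, and isomorphisms over open subsets.
-/

set_option autoImplicit false
set_option linter.unusedVariables false
set_option linter.unusedSectionVars false

universe u

open AlgebraicGeometry CategoryTheory Limits

namespace Pool.Agent.N98.PJ

/-- A morphism is dominant if its composition with an open immersion is dominant. -/
lemma isDominant_of_comp_openImmersion {P W Y : Scheme.{u}} (ι : P ⟶ W) (j : W ⟶ Y)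
    [IsOpenImmersion j] (h : IsDominant (ι ≫ j)) : IsDominant ι := by
  refine ⟨?_⟩
  have h1 : DenseRange (ι ≫ j) := h.denseRange
  intro w
  rw [mem_closure_iff]
  intro V hV hwV
  have hopen : IsOpen (j '' V) := j.isOpenEmbedding.isOpenMap V hV
  obtain ⟨y, ⟨v, hv, rfl⟩, ⟨p, hp⟩⟩ := h1.inter_open_nonempty _ hopen ⟨_, w, hwV, rfl⟩
  refine ⟨v, hv, p, ?_⟩
  apply j.isOpenEmbedding.injective
  rw [← hp]
  rfl

/-- Gluing of morphisms which agree on a dominant family of points. -/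
theorem exists_glue {Y X S : Scheme.{u}} [IsIntegral Y] (g : Y ⟶ S) (f : X ⟶ S) [IsSeparated f]
    (𝒰 : Y.OpenCover) (φ : ∀ i, 𝒰.X i ⟶ X) (hφ : ∀ i, φ i ≫ f = 𝒰.f i ≫ g)
    {P : Scheme.{u}} (χ : P ⟶ Y) [hχ : IsDominant χ] (ζ : ∀ i, P ⟶ 𝒰.X i)
    (hζ : ∀ i, ζ i ≫ 𝒰.f i = χ) (ξ : P ⟶ X) (hξ : ∀ i, ζ i ≫ φ i = ξ) :
    ∃ π : Y ⟶ X, π ≫ f = g ∧ ∀ i, 𝒰.f i ≫ π = φ i := by
  have hagree : ∀ i j, pullback.fst (𝒰.f i) (𝒰.f j) ≫ φ i =
      pullback.snd (𝒰.f i) (𝒰.f j) ≫ φ j := by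
    intro i j
    have hred : IsReduced (pullback (𝒰.f i) (𝒰.f j)) :=
      isReduced_of_isOpenImmersion (pullback.fst (𝒰.f i) (𝒰.f j) ≫ 𝒰.f i)
    let ι : P ⟶ pullback (𝒰.f i) (𝒰.f j) := pullback.lift (ζ i) (ζ j) ((hζ i).trans (hζ j).symm)
    have hι : IsDominant ι := by
      apply isDominant_of_comp_openImmersion ι (pullback.fst (𝒰.f i) (𝒰.f j) ≫ 𝒰.f i)
      rw [pullback.lift_fst_assoc, hζ]
      exact hχ
    refine ext_of_isDominant_of_isSeparated f ?_ ι ?_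
    · rw [Category.assoc, Category.assoc, hφ, hφ, pullback.condition_assoc]
    · rw [pullback.lift_fst_assoc, pullback.lift_snd_assoc, hξ, hξ]
  refine ⟨𝒰.glueMorphisms φ hagree, ?_, fun i => 𝒰.ι_glueMorphisms φ hagree i⟩
  apply 𝒰.hom_ext
  intro i
  rw [𝒰.ι_glueMorphisms_assoc, hφ]

/-- A separated morphism from an irreducible scheme, with a section over an open subscheme
which is an open immersion, is an isomorphism over this open subscheme. -/
theorem isIso_snd {Y X W : Scheme.{u}} [IsIntegral Y] (π : Y ⟶ X) [IsSeparated π] (a : W ⟶ X)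
    [IsOpenImmersion a] [Nonempty W] (b : W ⟶ Y) [IsOpenImmersion b] (hab : b ≫ π = a) :
    IsIso (pullback.snd π a) := by
  let σ : W ⟶ pullback π a := pullback.lift b (𝟙 W) (by rw [hab, Category.id_comp])
  have h1 : σ ≫ pullback.snd π a = 𝟙 W := pullback.lift_snd _ _ _
  have h2 : σ ≫ pullback.fst π a = b := pullback.lift_fst _ _ _
  have hoi : IsOpenImmersion σ := by
    have : IsOpenImmersion (σ ≫ pullback.fst π a) := by rw [h2]; infer_instance
    exact IsOpenImmersion.of_comp σ (pullback.fst π a)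
  have hci : IsClosedImmersion σ := by
    have : IsClosedImmersion (σ ≫ pullback.snd π a) := by rw [h1]; infer_instance
    exact IsClosedImmersion.of_comp σ (pullback.snd π a)
  have hne : Nonempty (pullback π a : Scheme.{u}) := ⟨σ (Classical.arbitrary W)⟩
  have hint : IsIntegral (pullback π a : Scheme.{u}) :=
    isIntegral_of_isOpenImmersion (pullback.fst π a)
  have hsurj : Surjective σ := by
    refine ⟨?_⟩
    rw [← Set.range_eq_univ]
    have hclopen : IsClopen (Set.range σ) :=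
      ⟨σ.isClosedEmbedding.isClosed_range, σ.isOpenEmbedding.isOpen_range⟩
    exact hclopen.eq_univ ⟨_, Classical.arbitrary W, rfl⟩
  have hiso : IsIso σ := (isIso_iff_isOpenImmersion_and_surjective σ).2 ⟨hoi, hsurj⟩
  have h3 : pullback.snd π a = inv σ := by
    rw [← cancel_epi σ, h1, IsIso.hom_inv_id]
  rw [h3]
  infer_instance

/-- Isomorphisms over open immersions give isomorphisms over the image. -/
theorem isIso_restrict {Y X W : Scheme.{u}} (π : Y ⟶ X) (a : W ⟶ X) [IsOpenImmersion a]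
    [IsIso (pullback.snd π a)] : IsIso (π ∣_ a.opensRange) :=
  ((MorphismProperty.isomorphisms Scheme.{u}).arrow_mk_iso_iff
    (morphismRestrictOpensRange π a)).2 ‹_›

/-- Smaller open sets. -/
theorem isIso_restrict_of_le {Y X : Scheme.{u}} (π : Y ⟶ X) {U U' : X.Opens} (h : U' ≤ U)
    (hU : IsIso (π ∣_ U)) : IsIso (π ∣_ U') := by
  have h1 : U.ι ''ᵁ (U.ι ⁻¹ᵁ U') = U' := by
    rw [Scheme.Hom.image_preimage_eq_opensRange_inf, Scheme.Opens.opensRange_ι]
    exact inf_eq_right.2 h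
  have h2 : IsIso (π ∣_ U ∣_ (U.ι ⁻¹ᵁ U')) := inferInstance
  have h3 := ((MorphismProperty.isomorphisms Scheme.{u}).arrow_mk_iso_iff
    (morphismRestrictRestrict π U (U.ι ⁻¹ᵁ U'))).1 h2
  rw [h1] at h3
  exact h3

/-- Restriction of a resolution to an open subset. -/
theorem restrict_resolution {Y X S : Scheme.{u}} [IsIntegral Y] [IsIntegral X] (π : Y ⟶ X)
    (hπ : IsProper π) (f : X ⟶ S) (hsm : AlgebraicGeometry.Smooth (π ≫ f)) (U : X.Opens)
    (hU0 : (U : Set X).Nonempty) (hU : IsIso (π ∣_ U)) (V : X.Opens) (hV0 : (V : Set X).Nonempty) :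
    ∃ (Y' : Scheme.{u}) (π' : Y' ⟶ V.toScheme), AlgebraicGeometry.IsIntegral Y' ∧
      AlgebraicGeometry.IsProper π' ∧ AlgebraicGeometry.Smooth (π' ≫ V.ι ≫ f) ∧
      ∃ U' : V.toScheme.Opens, Dense (U' : Set V.toScheme) ∧ IsIso (π' ∣_ U') := by
  have hne : ((V ⊓ U : X.Opens) : Set X).Nonempty :=
    nonempty_preirreducible_inter V.isOpen U.isOpen hV0 hU0
  obtain ⟨x, hxV, hxU⟩ := hne
  have hiso : IsIso (π ∣_ (V ⊓ U)) := isIso_restrict_of_le π inf_le_right hU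
  have hsurj : Function.Surjective (π ∣_ (V ⊓ U)) := by
    have h1 : Surjective (π ∣_ (V ⊓ U)) := inferInstance
    exact h1.surj
  obtain ⟨y, hy⟩ := hsurj ⟨x, hxV, hxU⟩
  have hVne : Nonempty V.toScheme := ⟨⟨x, hxV⟩⟩
  have hVint : IsIntegral V.toScheme := isIntegral_of_isOpenImmersion V.ι
  have hyV : (y.1 : Y) ∈ π ⁻¹ᵁ V := by
    have h2 : y.1 ∈ π ⁻¹ᵁ (V ⊓ U) := y.2
    exact h2.1
  have hY'ne : Nonempty (π ⁻¹ᵁ V).toScheme := ⟨⟨y.1, hyV⟩⟩
  refine ⟨(π ⁻¹ᵁ V).toScheme, π ∣_ V, isIntegral_of_isOpenImmersion (π ⁻¹ᵁ V).ι, ?_, ?_,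
    V.ι ⁻¹ᵁ U, ?_, ?_⟩
  · exact IsZariskiLocalAtTarget.restrict hπ V
  · rw [morphismRestrict_ι_assoc]
    infer_instance
  · refine IsOpen.dense (V.ι ⁻¹ᵁ U).isOpen ?_
    exact ⟨⟨x, hxV⟩, hxU⟩
  · have h1 : V.ι ''ᵁ (V.ι ⁻¹ᵁ U) = V ⊓ U := by
      rw [Scheme.Hom.image_preimage_eq_opensRange_inf, Scheme.Opens.opensRange_ι]
    refine ((MorphismProperty.isomorphisms Scheme.{u}).arrow_mk_iso_iff
      (morphismRestrictRestrict π V (V.ι ⁻¹ᵁ U))).2 ?_
    rw [h1]
    exact hiso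

end Pool.Agent.N98.PJ
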