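import Pool.Agent.N98.PJ.Dim
import Pool.Agent.W558.Var
import Pool.Agent.W558.WD.All

/-!
Resolution of quasi-projective varieties of bounded degree.
-/

set_option autoImplicit false
set_option linter.unusedVariables false
set_option linter.unusedSectionVars false

open AlgebraicGeometry CategoryTheory Limits HomogeneousLocalization Pool.Agent.W558

namespace Pool.Agent.N98.PJ

/-- In a total preorder on a finite nonempty set there is a smallest element. -/
lemma exists_least {ι : Type} [Finite ι] [Nonempty ι] (r : ι → ι → Prop) (hr : ∀ a b, r a b ∨ r b a)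
    (htr : ∀ a b c, r a b → r b c → r a c) : ∃ a, ∀ b, r a b := by
  classical
  have := Fintype.ofFinite ι
  have key : ∀ s : Finset ι, s.Nonempty → ∃ a ∈ s, ∀ b ∈ s, r a b := by
    intro s hs
    induction hs using Finset.Nonempty.cons_induction with
    | singleton a => exact ⟨a, Finset.mem_singleton_self a, fun b hb => by
        rw [Finset.mem_singleton.1 hb]
        exact (hr a a).elim id id⟩
    | cons a s ha hs ih =>
      obtain ⟨c, hc, hc'⟩ := ih
      rcases hr a c with h | h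
      · refine ⟨a, Finset.mem_cons_self a s, fun b hb => ?_⟩
        rcases Finset.mem_cons.1 hb with rfl | hb
        · exact (hr b b).elim id id
        · exact htr _ _ _ h (hc' b hb)
      · refine ⟨c, Finset.mem_cons_of_mem hc, fun b hb => ?_⟩
        rcases Finset.mem_cons.1 hb with rfl | hb
        · exact h
        · exact hc' b hb
  obtain ⟨a, -, ha⟩ := key Finset.univ Finset.univ_nonempty
  exact ⟨a, fun b => ha b (Finset.mem_univ b)⟩

section

variable {k S L : Type} [Field k] [CommRing S] [IsDomain S] [Algebra k S] (𝒜 : ℕ → Submodule k S)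
  [GradedAlgebra 𝒜] [Field L] [Algebra k L] [Algebra S L] [IsScalarTower k S L]
  [IsFractionRing S L]

lemma fld_le (l f : S) (hl : l ∈ 𝒜 1) (hl0 : l ≠ 0) (hf : f ∈ 𝒜 1) (hf0 : f ≠ 0) :
    fld (L := L) 𝒜 l ≤ fld (L := L) 𝒜 f := by
  have hl' : ((IsScalarTower.toAlgHom k S L) l : L) ≠ 0 := ev_ne hl0
  have hf' : ((IsScalarTower.toAlgHom k S L) f : L) ≠ 0 := ev_ne hf0
  unfold fld
  rw [IntermediateField.adjoin_le_iff]
  rintro _ ⟨s, hs, rfl⟩
  have h1 : ((IsScalarTower.toAlgHom k S L) s / (IsScalarTower.toAlgHom k S L) l : L) = ((IsScalarTower.toAlgHom k S L) s / (IsScalarTower.toAlgHom k S L) f) / ((IsScalarTower.toAlgHom k S L) l / (IsScalarTower.toAlgHom k S L) f) := by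
    field_simp
  rw [h1]
  exact IntermediateField.div_mem _ (IntermediateField.subset_adjoin k _ ⟨s, hs, rfl⟩)
    (IntermediateField.subset_adjoin k _ ⟨l, hl, rfl⟩)

lemma fld_frac (l f : S) (hl : l ∈ 𝒜 1) (hl0 : l ≠ 0) (hf : f ∈ 𝒜 1) (hf0 : f ≠ 0)
    (z : fld (L := L) 𝒜 l) : ∃ a ∈ chart 𝒜 ((IsScalarTower.toAlgHom k S L) : S →ₐ[k] L) f, ∃ b ∈ chart 𝒜 ((IsScalarTower.toAlgHom k S L) : S →ₐ[k] L) f,
      b ≠ 0 ∧ (z : L) = a / b := by
  have h1 := fld_le 𝒜 l f hl hl0 hf hf0 z.2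
  obtain ⟨a, ha, b, hb, h⟩ := IntermediateField.mem_adjoin_iff_div.1 h1
  by_cases hb0 : b = 0
  · rw [hb0, div_zero] at h
    exact ⟨0, Subalgebra.zero_mem _, 1, Subalgebra.one_mem _, one_ne_zero, by rw [h, zero_div]⟩
  · exact ⟨a, ha, b, hb, hb0, h⟩

end

/-- There is an element of degree one. -/
lemma exists_deg_one {k S : Type} [Field k] [CommRing S] [IsDomain S] [Algebra k S]
    (𝒜 : ℕ → Submodule k S) [GradedAlgebra 𝒜] (hgen : Algebra.adjoin k (𝒜 1 : Set S) = ⊤) (d : ℕ)
    (htr : Algebra.trdeg k S = d + 1) : ∃ l ∈ 𝒜 1, l ≠ 0 := by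
  by_contra h
  push Not at h
  have h1 : (𝒜 1 : Set S) ⊆ ((⊥ : Subalgebra k S) : Set S) := fun s hs => by
    rw [h s hs]
    exact Subalgebra.zero_mem _
  have h2 : (⊥ : Subalgebra k S) = ⊤ := by
    rw [eq_top_iff, ← hgen, Algebra.adjoin_le_iff]
    exact h1
  have h3 : Algebra.IsAlgebraic k S := by
    refine ⟨fun s => ?_⟩
    have hs : s ∈ (⊥ : Subalgebra k S) := by rw [h2]; trivial
    obtain ⟨r, rfl⟩ := Algebra.mem_bot.1 hs
    exact isAlgebraic_algebraMap r
  have h4 : Algebra.trdeg k S = 0 := trdeg_eq_zero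
  rw [h4] at htr
  exact absurd htr.symm (by positivity)

set_option maxHeartbeats 1000000 in
/-- **Resolution of projective varieties of bounded degree.** -/
theorem exists_resolution {k S : Type} [Field k] [PerfectField k] [CommRing S] [IsDomain S]
    [Algebra k S] (𝒜 : ℕ → Submodule k S) [GradedAlgebra 𝒜]
    (hgen : Algebra.adjoin k (𝒜 1 : Set S) = ⊤) (hfg : (𝒜 1).FG) (d : ℕ) (hd : 2 ≤ d)
    (htr : Algebra.trdeg k S = d + 1) (δ C0 : ℕ)
    (hδ : ∀ t : ℕ, d.factorial * Module.finrank k (𝒜 t) ≤ δ * (t + C0) ^ d)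
    (hchar : ((Nat.factorial (δ ^ 2 ^ (d - 2)) : ℕ) : k) ≠ 0) :
    ∃ (Y : Scheme.{0}) (π : Y ⟶ Proj 𝒜), IsIntegral Y ∧ IsProper π ∧
      AlgebraicGeometry.Smooth (π ≫ str 𝒜) ∧
      ∃ U : (Proj 𝒜).Opens, (U : Set (Proj 𝒜)).Nonempty ∧ IsIso (π ∣_ U) := by
  classical
  obtain ⟨l, hl, hl0⟩ := exists_deg_one 𝒜 hgen d htr
  let L := FractionRing S
  let ev : S →ₐ[k] L := IsScalarTower.toAlgHom k S L
  have hevi : Function.Injective ev := ev_inj
  have hl' : ev l ≠ 0 := ev_ne hl0
  have hfin1 : FiniteDimensional k (𝒜 1) := finite_graded 𝒜 hgen hfg 1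
  let m := Module.finrank k (𝒜 1)
  let bs := Module.finBasis k (𝒜 1)
  let b : Fin m → S := fun i => bs i
  have hb : ∀ i, b i ∈ 𝒜 1 := fun i => (bs i).2
  have hb0 : ∀ i, b i ≠ 0 := fun i h => bs.ne_zero i (Subtype.ext h)
  have hspan : ∀ s ∈ 𝒜 1, ∃ c : Fin m → k, s = ∑ i, c i • b i := by
    intro s hs
    refine ⟨fun i => bs.repr ⟨s, hs⟩ i, ?_⟩
    have h1 := congrArg Subtype.val (bs.sum_repr ⟨s, hs⟩)
    rw [AddSubmonoidClass.coe_finsetSum] at h1
    exact h1.symm
  let K : IntermediateField k L := fld (L := L) 𝒜 l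
  let x : Fin m → K := fun i => ⟨ev (b i) / ev l,
    chart_le_fld 𝒜 l (Algebra.subset_adjoin ⟨b i, hb i, rfl⟩)⟩
  have hx : ∀ i, (x i : L) = ev (b i) / ev l := fun i => rfl
  have hx0 : ∀ i, x i ≠ 0 := by
    intro i h
    have h1 : (x i : L) = 0 := by rw [h]; rfl
    rw [hx, div_eq_zero_iff] at h1
    exact ev_ne (hb0 i) (h1.resolve_right hl')
  have htop : IntermediateField.adjoin k (Set.range x) = ⊤ := by
    apply IntermediateField.map_injective K.val
    rw [IntermediateField.adjoin_map, ← AlgHom.fieldRange_eq_map,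
      IntermediateField.fieldRange_val]
    apply le_antisymm
    · rw [IntermediateField.adjoin_le_iff]
      rintro _ ⟨_, ⟨i, rfl⟩, rfl⟩
      exact (x i).2
    · change IntermediateField.adjoin k _ ≤ _
      rw [IntermediateField.adjoin_le_iff]
      rintro _ ⟨s, hs, rfl⟩
      obtain ⟨c, rfl⟩ := hspan s hs
      rw [map_sum, Finset.sum_div]
      refine sum_mem fun i _ => ?_
      have h1 : ev (c i • b i) / ev l = algebraMap k L (c i) * (ev (b i) / ev l) := by
        rw [map_smul, Algebra.smul_def, mul_div_assoc]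
      change ev (c i • b i) / ev l ∈ _
      rw [h1]
      refine mul_mem (IntermediateField.algebraMap_mem _ _) ?_
      exact IntermediateField.subset_adjoin k _ ⟨x i, ⟨i, rfl⟩, rfl⟩
  have htrK : Algebra.trdeg k K = d := trdeg_fld 𝒜 hgen l hl hl0 d htr
  have hgr : ∀ t : ℕ, d.factorial * Module.finrank k (img k x t) ≤ δ * (t + C0) ^ d := by
    intro t
    have := finite_graded 𝒜 hgen hfg t
    exact (Nat.mul_le_mul_left _ (growth_fld 𝒜 b hb l hl hl0 x hx t)).trans (hδ t)
  have hform : ∀ i : Fin m, algebraMap k K ((fun _ => 0 : Fin m → k) i) +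
      ∑ j, algebraMap k K ((Pi.single i 1 : Fin m → k) j) * x j = x i := by
    intro i
    rw [map_zero, zero_add, Finset.sum_eq_single i]
    · rw [Pi.single_eq_same, map_one, one_mul]
    · intro j _ hj
      rw [Pi.single_eq_of_ne hj, map_zero, zero_mul]
    · exact fun h => absurd (Finset.mem_univ i) h
  obtain ⟨T, I, hT, hI, M, hFr, hM⟩ := abs_models x htop d hd htrK δ C0 hgr hchar (Fin m)
    (fun _ => 0) (fun i => Pi.single i 1) (fun i => by rw [hform]; exact hx0 i)
  have hM' : ∀ i, IsBr M (x i) := fun i => by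
    have h1 := hM i
    rwa [hform] at h1
  obtain ⟨N, hN, hB⟩ := exists_common hM'
  have hN0 : N ≠ 0 := by
    rintro rfl
    exact hN Nat.cast_zero
  obtain ⟨T', I', hT', hI', M', q, hq, hpr⟩ := exists_princ M (fun i => x i ^ N) hB
  have hFr' := hq.frc hFr
  have hcharts : ∀ t, ∃ a, ∀ i, x i / x a ∈ M'.A t := by
    intro t
    have hmne : Nonempty (Fin m) := by
      obtain ⟨c, hc⟩ := hspan l hl
      by_contra h
      rw [not_nonempty_iff] at h
      rw [Finset.univ_eq_empty, Finset.sum_empty] at hc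
      exact hl0 hc
    obtain ⟨a, ha⟩ := exists_least (fun a b : Fin m => x b ^ N / x a ^ N ∈ M'.A t)
      (fun a b => hpr t a b) (fun a b c h1 h2 => by
        have h3 : x c ^ N / x a ^ N = (x c ^ N / x b ^ N) * (x b ^ N / x a ^ N) := by
          have := pow_ne_zero N (hx0 a)
          have := pow_ne_zero N (hx0 b)
          field_simp
        rw [h3]
        exact (M'.A t).mul_mem h2 h1)
    refine ⟨a, fun i => ?_⟩
    have hsm := M'.sm t
    have hic : IsIntegrallyClosed (M'.A t) := wd_norm k (M'.A t)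
    have hfrac : IsFractionRing (M'.A t) K := by
      refine IsFractionRing.of_field _ _ fun z => ?_
      obtain ⟨u, hu, v, hv, hv0, h⟩ := hFr' t z
      exact ⟨⟨u, hu⟩, ⟨v, hv⟩, by rw [h, div_eq_mul_inv]; rfl⟩
    have h1 : IsIntegral (M'.A t) (x i / x a) := by
      refine IsIntegral.of_pow (Nat.pos_of_ne_zero hN0) ?_
      rw [div_pow]
      exact isIntegral_algebraMap (x := (⟨_, ha i⟩ : M'.A t))
    obtain ⟨w, hw⟩ := IsIntegrallyClosed.isIntegral_iff.1 h1
    rw [← hw]
    exact w.2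
  obtain ⟨P, hP⟩ := exists_spm M'
  obtain ⟨π, h1, h2, h3⟩ := exists_res 𝒜 ev K (fun n s _ h => by
    apply hevi
    rw [h, map_zero]) hgen (fun f hf hf0 z => by
      refine fld_frac 𝒜 l f hl hl0 hf ?_ z
      rintro rfl
      exact hf0 (map_zero _)) P (fun j => by
    obtain ⟨t, ht⟩ := hP j
    obtain ⟨a, ha⟩ := hcharts t
    refine ⟨b a, hb a, ev_ne (hb0 a), fun s hs => ?_⟩
    obtain ⟨c, rfl⟩ := hspan s hs
    refine ⟨∑ i, algebraMap k K (c i) * (x i / x a), Subalgebra.sum_mem _ fun i _ =>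
      Subalgebra.mul_mem _ (Subalgebra.algebraMap_mem _ _) (ht (ha i)), ?_⟩
    have hba : ev (b a) ≠ 0 := ev_ne (hb0 a)
    have h1 : ∀ z : K, (z : L) = algebraMap K L z := fun z => rfl
    rw [h1, map_sum, map_sum, Finset.sum_div]
    refine Finset.sum_congr rfl fun i _ => ?_
    rw [map_mul, map_div₀, ← h1, ← h1, ← h1, hx, hx, map_smul, Algebra.smul_def, mul_div_assoc,
      div_div_div_cancel_right₀ hl']
    rfl)
  exact ⟨P.Y, π, P.int, h1, h2, h3⟩

end Pool.Agent.N98.PJ
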