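import Mathlib

/-!
The point of `Proj` given by a homomorphism to a field.
-/

set_option autoImplicit false
set_option linter.unusedVariables false
set_option linter.unusedSectionVars false

universe u

open AlgebraicGeometry CategoryTheory Limits HomogeneousLocalization

namespace Pool.Agent.N98.PJ

variable {A : Type u} [CommRing A] {σ : Type*} [SetLike σ A] [AddSubgroupClass σ A] (𝒜 : ℕ → σ)
  [GradedRing 𝒜] {L : Type u} [Field L] (ev : A →+* L)

/-- The value of a fraction of degree zero. -/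
noncomputable def av (f : A) (h : ev f ≠ 0) : Away 𝒜 f →+* L :=
  (IsLocalization.Away.lift (S := Localization.Away f) f (g := ev) (IsUnit.mk0 _ h)).comp
    (algebraMap (Away 𝒜 f) (Localization.Away f))

lemma av_mk {f : A} {m : ℕ} (hf : f ∈ 𝒜 m) (h : ev f ≠ 0) (n : ℕ) (a : A)
    (ha : a ∈ 𝒜 (n • m)) : av 𝒜 ev f h (Away.mk 𝒜 hf n a ha) = ev a / ev f ^ n := by
  unfold av
  rw [RingHom.comp_apply, HomogeneousLocalization.algebraMap_apply, Away.val_mk,
    Localization.mk_eq_mk', IsLocalization.Away.lift, IsLocalization.lift_mk'_spec]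
  simp only [map_pow]
  field_simp

lemma av_fromZero {f : A} (h : ev f ≠ 0) (a : 𝒜 0) :
    av 𝒜 ev f h (fromZeroRingHom 𝒜 _ a) = ev a := by
  unfold av
  rw [RingHom.comp_apply, HomogeneousLocalization.algebraMap_apply]
  have h1 : (fromZeroRingHom 𝒜 (Submonoid.powers f) a).val = Localization.mk (a : A) 1 := rfl
  rw [h1, Localization.mk_one_eq_algebraMap, IsLocalization.Away.lift_eq]

lemma av_awayMap {f g x : A} {m e : ℕ} (hf : f ∈ 𝒜 m) (hg : g ∈ 𝒜 e) (hx : x = f * g)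
    (h : ev f ≠ 0) (h' : ev x ≠ 0) (z : Away 𝒜 f) :
    av 𝒜 ev x h' (awayMap 𝒜 hg hx z) = av 𝒜 ev f h z := by
  obtain ⟨n, a, ha, rfl⟩ := Away.mk_surjective 𝒜 hf z
  rw [awayMap_mk, av_mk 𝒜 ev hf h, av_mk 𝒜 ev _ h', hx, map_mul, map_mul, map_pow]
  have hg0 : ev g ≠ 0 := by
    intro h0
    apply h'
    rw [hx, map_mul, h0, mul_zero]
  rw [mul_pow, mul_div_mul_right _ _ (pow_ne_zero n hg0)]

/-- The point of `Proj 𝒜` given by a homomorphism to a field. -/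
noncomputable def pt {f : A} {m : ℕ} (hf : f ∈ 𝒜 m) (hm : 0 < m) (h : ev f ≠ 0) :
    Spec (.of L) ⟶ Proj 𝒜 :=
  Spec.map (CommRingCat.ofHom (av 𝒜 ev f h)) ≫ Proj.awayι 𝒜 f hf hm

lemma pt_eq_mul {f g x : A} {m e : ℕ} (hf : f ∈ 𝒜 m) (hm : 0 < m) (h : ev f ≠ 0)
    (hg : g ∈ 𝒜 e) (hx : x = f * g) (h' : ev x ≠ 0) :
    pt 𝒜 ev hf hm h = pt 𝒜 ev (hx ▸ SetLike.mul_mem_graded hf hg)
      (hm.trans_le (m.le_add_right e)) h' := by
  unfold pt
  rw [← Proj.SpecMap_awayMap_awayι 𝒜 hf hm hg hx, ← Category.assoc, ← Spec.map_comp,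
    ← CommRingCat.ofHom_comp]
  congr 3
  ext z
  exact (av_awayMap 𝒜 ev hf hg hx h h' z).symm

/-- The point does not depend on the chart. -/
lemma pt_eq {f g : A} {m e : ℕ} (hf : f ∈ 𝒜 m) (hm : 0 < m) (h : ev f ≠ 0)
    (hg : g ∈ 𝒜 e) (he : 0 < e) (h' : ev g ≠ 0) :
    pt 𝒜 ev hf hm h = pt 𝒜 ev hg he h' := by
  have hfg : ev (f * g) ≠ 0 := by rw [map_mul]; exact mul_ne_zero h h'
  rw [pt_eq_mul 𝒜 ev hf hm h hg rfl hfg, pt_eq_mul 𝒜 ev hg he h' hf (mul_comm f g) hfg]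
  congr 1
  exact Nat.add_comm m e

end Pool.Agent.N98.PJ
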