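import Pool.Agent.W418.Z.Reg
import Pool.Agent.N98.PJ.Pt
import Pool.Agent.N98.PJ.Glue

/-!
Smooth proper schemes with given charts.
-/

set_option autoImplicit false
set_option linter.unusedVariables false
set_option linter.unusedSectionVars false

open AlgebraicGeometry CategoryTheory Limits HomogeneousLocalization
open Pool.Agent.H968R2.Quad Pool.Agent.W558 Pool.Agent.H920R2

namespace Pool.Agent.N98.PJ

/-- A smooth proper scheme over `k` with function field `K`, given by charts. -/
structure SPM (k K : Type) [Field k] [Field K] [Algebra k K] where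
  Y : Scheme.{0}
  int : IsIntegral Y
  g : Y ⟶ Spec (.of k)
  pr : IsProper g
  sm : AlgebraicGeometry.Smooth g
  J : Type
  B : J → Subalgebra k K
  c : ∀ j, Spec (.of (B j)) ⟶ Y
  oi : ∀ j, IsOpenImmersion (c j)
  cov : ∀ y, ∃ j, y ∈ Set.range (c j)
  χ : Spec (.of K) ⟶ Y
  hχ : ∀ j, Spec.map (CommRingCat.ofHom (B j).val.toRingHom) ≫ c j = χ
  hg : ∀ j, c j ≫ g = Spec.map (CommRingCat.ofHom (algebraMap k (B j)))
  ft : ∀ j, (B j).FG

section

variable {k K : Type} [Field k] [Field K] [Algebra k K] (M : Submodule k K)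

lemma psi_eq_av (a : K) (ha : a ∈ M) (ha0 : a ≠ 0) (h : evalOne M (tElt M a ha) ≠ 0)
    (z : Away (mPiece M) (tElt M a ha)) :
    psi M a ha ha0 z = av (mPiece M) (evalOne M) (tElt M a ha) h z := rfl

/-- The charts cover. -/
theorem cover_of_valuative {I : Type} (z : I → K) (hz : ∀ i, z i ∈ M)
    (hspan : M = Submodule.span k (Set.range z)) (J : Set I) (hJ0 : ∀ j ∈ J, z j ≠ 0)
    (hcv : ∀ V : ValuationSubring K, (∀ c : k, algebraMap k K c ∈ V) →
      ∃ j ∈ J, ∀ i, z i / z j ∈ V) (y : model M) :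
    ∃ j ∈ J, y ∈ (modelChart M (z j) (hz j)).opensRange := by
  classical
  obtain ⟨a, ha, ha0, w, hw⟩ := exists_chart M y
  let P : Ideal (Away (mPiece M) (tElt M a ha)) := PrimeSpectrum.asIdeal w
  have hP : P.IsPrime := PrimeSpectrum.isPrime w
  let φ := psi M a ha ha0
  have hφ : Function.Injective φ := psi_injective M a ha ha0
  have hunit : ∀ x : P.primeCompl, IsUnit (φ x) := by
    intro x
    apply IsUnit.mk0
    intro h
    have h0 : (x : Away (mPiece M) (tElt M a ha)) = 0 := (map_eq_zero_iff φ hφ).1 h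
    exact x.2 (by rw [h0]; exact P.zero_mem)
  let f : Localization.AtPrime P →+* K := IsLocalization.lift (M := P.primeCompl)
    (S := Localization.AtPrime P) hunit
  obtain ⟨V, hVf, hloc⟩ := IsLocalRing.exists_factor_valuationRing f
  let α : Away (mPiece M) (tElt M a ha) →+* Localization.AtPrime P := algebraMap _ _
  have hfφ : ∀ x : Away (mPiece M) (tElt M a ha), f (α x) = φ x :=
    fun x => IsLocalization.lift_eq (M := P.primeCompl) (S := Localization.AtPrime P) hunit x
  have hchV : ∀ x ∈ Algebra.adjoin k {y : K | ∃ m ∈ M, y = m / a}, x ∈ V := by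
    intro x hx
    obtain ⟨u, rfl⟩ := (mem_range_psi M a ha ha0 x).2 hx
    rw [show psi M a ha ha0 u = φ u from rfl, ← hfφ]
    exact hVf _
  obtain ⟨s, hsJ, hs⟩ := hcv V (fun c => hchV _ (Subalgebra.algebraMap_mem _ c))
  refine ⟨s, hsJ, ?_⟩
  have hs0 : z s ≠ 0 := hJ0 s hsJ
  set t := Away.isLocalizationElem (tElt_mem M a ha) (tElt_mem M (z s) (hz s)) with ht
  have hφt : φ t = z s / a := by
    rw [ht]
    change psi M a ha ha0 _ = _
    rw [psi_eq_av M a ha ha0 (by rw [evalOne_tElt]; exact ha0)]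
    unfold Away.isLocalizationElem
    rw [av_mk, pow_one, pow_one, evalOne_tElt, evalOne_tElt]
  have haV : a / z s ∈ V := by
    have h1 : a ∈ Submodule.span k (Set.range z) := hspan ▸ ha
    have h2 : ∀ b ∈ Submodule.span k (Set.range z), b / z s ∈ V := by
      intro b hb
      induction hb using Submodule.span_induction with
      | mem x hx =>
        obtain ⟨i, rfl⟩ := hx
        exact hs i
      | zero => rw [zero_div]; exact V.zero_mem
      | add x y _ _ hx hy => rw [add_div]; exact V.add_mem _ _ hx hy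
      | smul c x _ hx =>
        rw [Algebra.smul_def, mul_div_assoc]
        exact V.mul_mem _ _ (hchV _ (Subalgebra.algebraMap_mem _ c)) hx
    exact h2 a h1
  have htP : t ∉ P := by
    intro hmemt
    have hnu : ¬ IsUnit (α t) := by
      have := (IsLocalization.AtPrime.to_map_mem_maximal_iff (Localization.AtPrime P) P t).2
        hmemt
      exact (IsLocalRing.mem_maximalIdeal _).1 this
    apply hnu
    apply hloc.1
    have hinv : (f (α t))⁻¹ ∈ V := by
      rw [hfφ, hφt, inv_div]
      exact haV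
    have hne : f (α t) ≠ 0 := by
      rw [hfφ, hφt]
      exact div_ne_zero hs0 ha0
    refine IsUnit.of_mul_eq_one ⟨_, hinv⟩ ?_
    apply Subtype.ext
    change f (α t) * (f (α t))⁻¹ = 1
    exact mul_inv_cancel₀ hne
  have h5 := Proj.awayι_preimage_basicOpen (mPiece M) (f := tElt M a ha)
    (tElt_mem M a ha) one_pos (g := tElt M (z s) (hz s)) (tElt_mem M (z s) (hz s)) one_pos
  have h6 : w ∈ (Proj.awayι (mPiece M) (tElt M a ha) (tElt_mem M a ha) one_pos) ⁻¹ᵁ
      Proj.basicOpen (mPiece M) (tElt M (z s) (hz s)) := by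
    rw [h5]
    exact htP
  rw [modelChart_opensRange, ← hw]
  exact h6

/-- The isomorphism of the chart. -/
noncomputable def chartIso (a : K) (ha : a ∈ M) (ha0 : a ≠ 0) :
    Spec (.of (Algebra.adjoin k {y : K | ∃ m ∈ M, y = m / a})) ⟶
      Spec (.of (Away (mPiece M) (tElt M a ha))) :=
  Spec.map (CommRingCat.ofHom (chartEquiv M a ha ha0 : Away (mPiece M) (tElt M a ha) →+*
    Algebra.adjoin k {y : K | ∃ m ∈ M, y = m / a}))

instance (a : K) (ha : a ∈ M) (ha0 : a ≠ 0) : IsIso (chartIso M a ha ha0) := by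
  have h1 : CommRingCat.ofHom (chartEquiv M a ha ha0 : Away (mPiece M) (tElt M a ha) →+*
      Algebra.adjoin k {y : K | ∃ m ∈ M, y = m / a}) =
      (chartEquiv M a ha ha0).toCommRingCatIso.hom := rfl
  unfold chartIso
  rw [h1]
  infer_instance

/-- The chart of the model. -/
noncomputable def chartB (a : K) (ha : a ∈ M) (ha0 : a ≠ 0) :
    Spec (.of (Algebra.adjoin k {y : K | ∃ m ∈ M, y = m / a})) ⟶ Proj (mPiece M) :=
  chartIso M a ha ha0 ≫ Proj.awayι (mPiece M) (tElt M a ha) (tElt_mem M a ha) one_pos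

instance (a : K) (ha : a ∈ M) (ha0 : a ≠ 0) : IsOpenImmersion (chartB M a ha ha0) :=
  IsOpenImmersion.comp _ _

lemma chartB_opensRange (a : K) (ha : a ∈ M) (ha0 : a ≠ 0) :
    (chartB M a ha ha0).opensRange = Proj.basicOpen (mPiece M) (tElt M a ha) :=
  (Scheme.Hom.opensRange_comp_of_isIso _ _).trans (Proj.opensRange_awayι _ _ _ _)

lemma chartB_pt (a : K) (ha : a ∈ M) (ha0 : a ≠ 0) (h : evalOne M (tElt M a ha) ≠ 0) :
    Spec.map (CommRingCat.ofHom
      (Algebra.adjoin k {y : K | ∃ m ∈ M, y = m / a}).val.toRingHom) ≫ chartB M a ha ha0 =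
      pt (mPiece M) (evalOne M) (tElt_mem M a ha) one_pos h := by
  unfold chartB pt chartIso
  rw [← Category.assoc, ← Spec.map_comp, ← CommRingCat.ofHom_comp]
  rfl

lemma chartB_toSpecZero (a : K) (ha : a ∈ M) (ha0 : a ≠ 0) :
    chartB M a ha ha0 ≫ Proj.toSpecZero (mPiece M) ≫ Spec.map (toZeroHom M) =
      Spec.map (CommRingCat.ofHom
      (algebraMap k (Algebra.adjoin k {y : K | ∃ m ∈ M, y = m / a}))) := by
  unfold chartB chartIso
  rw [Category.assoc, Proj.awayι_toSpecZero_assoc, ← Spec.map_comp, ← Spec.map_comp]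
  congr 1
  apply CommRingCat.hom_ext
  ext r
  change psi M a ha ha0 (fromZeroRingHom (mPiece M) _ (toZero M r)) = algebraMap k K r
  have h0 : evalOne M (tElt M a ha) ≠ 0 := by rw [evalOne_tElt]; exact ha0
  rw [psi_eq_av M a ha ha0 h0, av_fromZero]
  exact evalOne_mMon M 0 _ (by rw [pow_zero]; exact Submodule.mem_one.2 ⟨r, rfl⟩)

lemma chartB_modelMap (a : K) (ha : a ∈ M) (ha0 : a ≠ 0) :
    @CategoryStruct.comp Scheme.{0} _ _ (model M) _ (chartB M a ha ha0) (modelMap M) =
      Spec.map (CommRingCat.ofHom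
      (algebraMap k (Algebra.adjoin k {y : K | ∃ m ∈ M, y = m / a}))) :=
  chartB_toSpecZero M a ha ha0

end

/-- Smooth charts give a smooth proper scheme. -/
theorem exists_spm {k K : Type} [Field k] [Field K] [Algebra k K] {R : Subalgebra k K}
    {T I : Type} [Finite T] (M0 : LM (⊥ : Subalgebra k K) R T I) :
    ∃ P : SPM k K, ∀ j, ∃ t, M0.A t ≤ P.B j := by
  classical
  obtain ⟨I', hI', z, J, hM⟩ := Pool.Agent.W418.Z.modelG_of_LM M0
  let M : Submodule k K := Submodule.span k (Set.range z)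
  have hz : ∀ i, z i ∈ M := fun i => Submodule.subset_span ⟨i, rfl⟩
  have hfg : M.FG := Submodule.fg_span (Set.finite_range z)
  obtain ⟨j0, hj0, -⟩ := hM.cv ⊤ (fun _ => trivial)
  have hz0 := hM.z0
  have hB : ∀ a : K, Algebra.adjoin k {y : K | ∃ m ∈ M, y = m / a} =
      Algebra.adjoin k (Set.range fun i => z i / a) := by
    intro a
    apply le_antisymm
    · rw [Algebra.adjoin_le_iff]
      rintro _ ⟨m, hm, rfl⟩
      change m / a ∈ Algebra.adjoin k (Set.range fun i => z i / a)
      have hm' : m ∈ Submodule.span k (Set.range z) := hm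
      induction hm' using Submodule.span_induction with
      | mem x hx =>
        obtain ⟨i, rfl⟩ := hx
        exact Algebra.subset_adjoin ⟨i, rfl⟩
      | zero => rw [zero_div]; exact Subalgebra.zero_mem _
      | add x y hx' hy' hx hy => rw [add_div]; exact Subalgebra.add_mem _ (hx hx') (hy hy')
      | smul c x hx' hx =>
        rw [Algebra.smul_def, mul_div_assoc]
        exact Subalgebra.mul_mem _ (Subalgebra.algebraMap_mem _ c) (hx hx')
    · rw [Algebra.adjoin_le_iff]
      rintro _ ⟨i, rfl⟩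
      exact Algebra.subset_adjoin ⟨z i, hz i, rfl⟩
  have hint : IsIntegral (model M) := model_integral M (z j0) (hz j0) (hz0 j0 hj0)
  have hcov : ∀ y : Proj (mPiece M), ∃ j : {j // j ∈ J},
      y ∈ (chartB M (z j.1) (hz j.1) (hz0 j.1 j.2)).opensRange := by
    intro y
    obtain ⟨j, hj, hy⟩ := cover_of_valuative M z hz rfl J hz0 hM.cv y
    rw [modelChart_opensRange] at hy
    refine ⟨⟨j, hj⟩, ?_⟩
    have h1 := chartB_opensRange M (z j) (hz j) (hz0 j hj)
    exact h1 ▸ hy
  have hev : ∀ j : {j // j ∈ J}, evalOne M (tElt M (z j.1) (hz j.1)) ≠ 0 := by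
    intro j
    rw [evalOne_tElt]
    exact hz0 j.1 j.2
  refine ⟨{ Y := Proj (mPiece M)
            int := hint
            g := Proj.toSpecZero (mPiece M) ≫ Spec.map (toZeroHom M)
            pr := modelMap_isProper M (algebraMap k K).injective hfg
            sm := ?_
            J := {j // j ∈ J}
            B := fun j => Algebra.adjoin k {y : K | ∃ m ∈ M, y = m / z j.1}
            c := fun j => chartB M (z j.1) (hz j.1) (hz0 j.1 j.2)
            oi := fun j => inferInstance
            cov := hcov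
            χ := pt (mPiece M) (evalOne M) (tElt_mem M (z j0) (hz j0)) one_pos (hev ⟨j0, hj0⟩)
            hχ := fun j => ?_
            hg := fun j => chartB_toSpecZero M _ _ _
            ft := fun j => ?_ }, fun j => ?_⟩
  · have hsup : ⨆ j : {j // j ∈ J}, (chartB M (z j.1) (hz j.1) (hz0 j.1 j.2)).opensRange = ⊤ := by
      rw [eq_top_iff]
      intro y _
      rw [TopologicalSpace.Opens.mem_iSup]
      exact hcov y
    rw [IsZariskiLocalAtSource.iff_of_iSup_eq_top (P := @AlgebraicGeometry.Smooth.{0})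
      (fun j : {j // j ∈ J} => (chartB M (z j.1) (hz j.1) (hz0 j.1 j.2)).opensRange) hsup]
    intro j
    rw [← MorphismProperty.cancel_left_of_respectsIso (P := @AlgebraicGeometry.Smooth.{0})
      (chartB M (z j.1) (hz j.1) (hz0 j.1 j.2)).isoOpensRange.hom, ← Category.assoc,
      Scheme.Hom.isoOpensRange_hom_ι, chartB_toSpecZero,
      HasRingHomProperty.Spec_iff (P := @AlgebraicGeometry.Smooth.{0})]
    have h1 := hM.sm j.1 j.2
    rw [← hB] at h1
    exact RingHom.smooth_algebraMap.2 h1
  · rw [chartB_pt M _ _ _ (hev j)]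
    exact pt_eq _ _ _ _ _ _ _ _
  · rw [hB]
    exact ⟨(Set.finite_range fun i => z i / z j.1).toFinset, by rw [Set.Finite.coe_toFinset]⟩
  · obtain ⟨t, ht⟩ := hM.aa j.1 j.2
    refine ⟨t, fun x hx => ?_⟩
    change x ∈ Algebra.adjoin k {y : K | ∃ m ∈ M, y = m / z j.1}
    rw [hB]
    exact ht hx

end Pool.Agent.N98.PJ
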