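import Pool.Agent.N98.PJ.Main

/-!
Open subschemes of projective varieties of bounded degree.
-/

set_option autoImplicit false
set_option linter.unusedVariables false
set_option linter.unusedSectionVars false

open AlgebraicGeometry CategoryTheory Limits HomogeneousLocalization Pool.Agent.W558

namespace Pool.Agent.N98.PJ

/-- **Resolution of quasi-projective varieties of bounded degree.** -/
theorem isResolvable_open {k S : Type} [Field k] [PerfectField k] [CommRing S] [IsDomain S]
    [Algebra k S] (𝒜 : ℕ → Submodule k S) [GradedAlgebra 𝒜]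
    (hgen : Algebra.adjoin k (𝒜 1 : Set S) = ⊤) (hfg : (𝒜 1).FG) (d : ℕ) (hd : 2 ≤ d)
    (htr : Algebra.trdeg k S = d + 1) (δ C0 : ℕ)
    (hδ : ∀ t : ℕ, d.factorial * Module.finrank k (𝒜 t) ≤ δ * (t + C0) ^ d)
    (hchar : ((Nat.factorial (δ ^ 2 ^ (d - 2)) : ℕ) : k) ≠ 0)
    (U : (Proj 𝒜).Opens) (hU : (U : Set (Proj 𝒜)).Nonempty) :
    IsResolvableVariety (X := U.toScheme) (U.ι ≫ str 𝒜) := by
  obtain ⟨Y, π, hY, hπ, hsm, U0, hU0, hiso⟩ := exists_resolution 𝒜 hgen hfg d hd htr δ C0 hδ hchar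
  obtain ⟨l, hl, hl0⟩ := exists_deg_one 𝒜 hgen d htr
  have hint : IsIntegral (Proj 𝒜) := proj_integral 𝒜 one_ne_zero l hl hl0
  have hUne : Nonempty U.toScheme := ⟨⟨hU.some, hU.some_mem⟩⟩
  have hUint : IsIntegral U.toScheme := isIntegral_of_isOpenImmersion U.ι
  have hft := finiteType_zero 𝒜 hgen hfg
  have hiso0 := isIso_zero 𝒜 hgen
  have hprop : IsProper (Proj.toSpecZero 𝒜) := inferInstance
  have hsep : IsSeparated (str 𝒜) := isSeparated_str 𝒜
  have hlft : LocallyOfFiniteType (str 𝒜) := by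
    unfold str
    infer_instance
  have hqc : QuasiCompact (str 𝒜) := by
    unfold str
    infer_instance
  have hnoeth : IsLocallyNoetherian (Proj 𝒜) := LocallyOfFiniteType.isLocallyNoetherian (str 𝒜)
  refine ⟨⟨hUint, inferInstance, inferInstance, inferInstance⟩, ?_⟩
  exact restrict_resolution π hπ (str 𝒜) hsm U0 hU0 hiso U hU

end Pool.Agent.N98.PJ
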